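import Pool.Agent.H76.ADV.Cal3

/-!
# Complements and powers
-/

set_option autoImplicit false

namespace Pool.Agent.H71.PX

open Pool.Agent.H69.Sp Pool.Agent.H76.ADV

theorem gr_pow {f : ℕ → ℕ} (hf : GR f) : ∀ r : ℕ, GR (fun u => f u ^ r)
  | 0 => by simpa using GR.num 1
  | r + 1 => by simpa only [pow_succ] using (gr_pow hf r).mul hf

/-- The complement of `S` is a spectrum if and only if the complement of the set of the powers of the
elements of `S` is. -/
theorem posCompl_pow {S : Set ℕ} {r : ℕ} (hr : 0 < r) :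
    IsSpectrum (posCompl ((fun m => m ^ r) '' S)) ↔ IsSpectrum (posCompl S) := by
  have inj : ∀ a b : ℕ, a ^ r = b ^ r → a = b := fun a b h => Nat.pow_left_injective (by omega) h
  constructor
  · intro h
    have h1 := (RL.mem h (gr_pow GR.id r)).isSpectrum
    have e : {u : ℕ | 0 < u ∧ u ^ r ∈ posCompl ((fun m => m ^ r) '' S)} = posCompl S := by
      ext u
      constructor
      · rintro ⟨h0, _, h2⟩
        exact ⟨h0, fun hu => h2 ⟨u, hu, rfl⟩⟩
      · rintro ⟨h0, h2⟩
        refine ⟨h0, Nat.pow_pos h0, ?_⟩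
        rintro ⟨m, hm, he⟩
        rw [inj _ _ he] at hm
        exact h2 hm
    rwa [e] at h1
  · intro h
    have h1 : RL (fun u => ∀ s, s < u + 1 → (s ^ r ≠ u ∨ s ∈ posCompl S)) := by
      refine RL.all (R := fun s u => s ^ r ≠ u ∨ s ∈ posCompl S) ?_ (GR.id.add (GR.num 1))
      exact (RL.ne (gr_pow GR.fst' r) GR.snd').or (RL.mem h GR.fst')
    have h2 := h1.isSpectrum
    have e : {u : ℕ | 0 < u ∧ ∀ s, s < u + 1 → (s ^ r ≠ u ∨ s ∈ posCompl S)} =
        posCompl ((fun m => m ^ r) '' S) := by
      ext u
      constructor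
      · rintro ⟨h0, h3⟩
        refine ⟨h0, ?_⟩
        rintro ⟨m, hm, he⟩
        have he' : m ^ r = u := he
        have : m < u + 1 := by
          rw [← he']
          exact Nat.lt_succ_of_le (Nat.le_self_pow (by omega) m)
        rcases h3 m this with h4 | h4
        · exact h4 he'
        · exact h4.2 hm
      · rintro ⟨h0, h3⟩
        refine ⟨h0, fun s _ => ?_⟩
        by_cases hs : s ^ r = u
        · right
          refine ⟨?_, fun hS => h3 ⟨s, hS, hs⟩⟩
          rcases Nat.eq_zero_or_pos s with rfl | h5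
          · rw [zero_pow (by omega)] at hs
            omega
          · exact h5
        · exact Or.inl hs
    rwa [e] at h2

end Pool.Agent.H71.PX
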