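import Pool.Agent.H71.PX.Targets
import Pool.Agent.H69.Sp.Per

/-!
# The complements for the easy prefixes
-/

set_option autoImplicit false

namespace Pool.Agent.H71.PX

open Pool.Agent.H69.Sp Pool.Agent.H8.PL

theorem isSpectrum_posCompl {X : Set ℕ} (h : X.Finite ∨ Xᶜ.Finite) : IsSpectrum (posCompl X) := by
  have key : UltPer Xᶜ := by
    rcases h with h | h
    · obtain ⟨b, hb⟩ := h.bddAbove
      refine ⟨b + 1, 1, by norm_num, fun n hn => ?_⟩
      have h1 : n ∉ X := fun hx => by have := hb hx; omega
      have h2 : n + 1 ∉ X := fun hx => by have := hb hx; omega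
      simp [h1, h2]
    · obtain ⟨b, hb⟩ := h.bddAbove
      refine ⟨b + 1, 1, by norm_num, fun n hn => ?_⟩
      have h1 : n ∉ Xᶜ := fun hx => by have := hb hx; omega
      have h2 : n + 1 ∉ Xᶜ := fun hx => by have := hb hx; omega
      simp only [h1, h2]
  exact key.isSpectrum

end Pool.Agent.H71.PX
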