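import Pool.Agent.H71.PX.Targets

/-!
# Rows FO and MO
-/

set_option autoImplicit false

namespace Pool.Agent.H71.PX

open Pool.Agent.H69.Sp Pool.Agent.H8.PL

theorem pf_FO (tr : T_TR) (z4 : T_Z4) (z5 : T_Z5) : T_FO := by
  intro α Q m U Hh Vv hne hfin h
  obtain ⟨n, v, I, ht⟩ := tr α Q m U Hh Vv hne hfin h
  exact ⟨v + 1, v.succ_pos, z4 α Q m U Hh Vv n v hfin h I ht, z5 α Q m U Hh Vv n v h I ht⟩

theorem pf_MO (mu : T_MU) (mn : T_MN) (mp : T_MP) (mg : T_MG) (mc : T_MC) (mx : T_MX) : T_MO := by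
  intro Q U Hh Vv n t ht x y
  have h1 := mu Q U Hh Vv n t ht x y
  have h2 : ∃ z, Tk (Mo n t) Hh Vv x y z := by
    by_cases hx : (Mo n t).N x
    · by_cases hy : (Mo n t).N y
      · exact mn Q U Hh Vv n t ht x y hx hy
      · exact mp Q U Hh Vv n t ht x y hx hy
    · by_cases hy : (Mo n t).N y
      · exact mg Q U Hh Vv n t ht x y hx hy
      · by_cases cx : (Mo n t).C x
        · by_cases cy : (Mo n t).C y
          · exact mc Q U Hh Vv n t ht x y ⟨hx, cx⟩ ⟨hy, cy⟩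
          · exact mx Q U Hh Vv n t ht x y hx hy (Or.inr ⟨hy, cy⟩)
        · exact mx Q U Hh Vv n t ht x y hx hy (Or.inl ⟨hx, cx⟩)
  obtain ⟨z, hz⟩ := h2
  exact ⟨z, h1, hz⟩

end Pool.Agent.H71.PX
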