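import Pool.Agent.H71.PX.Targets

/-!
# Rows CS, ST, NS, SL, SA: the states
-/

set_option autoImplicit false

namespace Pool.Agent.H71.PX

open Pool.Agent.H69.Sp Pool.Agent.H8.PL

theorem pf_CS (ra : T_RA) (rb : T_RB) : T_CS := by
  intro α Q m U Hh Vv n v h I j hj z z' hz hc hp
  obtain ⟨hz', ha', ha, hb, hk⟩ := hc
  obtain ⟨y, hy1, hy2, _, _, hy5, _⟩ := h.tlA hz hz' ha hk
  obtain ⟨hy6, hy7⟩ := hy5 hb
  obtain ⟨y', hy'1, hy'2, hy'3⟩ := h.prd hy1 hz hy6 hy7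
  have e1 : y' = n j := I.s j hj.le true z y' hz.1 hy'1 hp hy'3
  subst e1
  have e2 : y = n (j + 1) := I.usuc j hj y hy1 hy'2
  subst e2
  refine ⟨hy2, fun hnc k hk' hk2 => ?_⟩
  obtain ⟨rb1, _, rb3⟩ := rb α Q m U Hh Vv n v h I z' hz'.1
  obtain ⟨j', hj', hj2⟩ := rb1 k hk' hk2
  have e3 : j' = j + 1 := rb3 j' (j + 1) (by omega) (by omega) true hj2 hy2
  exact hnc k hk' (I.sA k hk' j (by omega) z' z hz' hz ha' hk2 hp)

theorem pf_ST (ra : T_RA) (cs : T_CS) : T_ST := by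
  intro α Q m U Hh Vv n v h I j hj ⟨z, u, t, hz, hnc, hp, hl, hx⟩
  have hnj : m.N (n j) := I.num j hj.le
  have hsd : ¬ m.SD z := by
    intro hsd
    have h1 := (h.uP hnj hz.1).2.2.2.2.2.2.2.2.2.2 hz.2 hp
    have h2 : m.R false (n j) z := h1.1 hsd
    have h3 : m.L false (n j) z := (h.uP hnj hz.1).2.1 false h2
    have h4 := ((ra α Q m U Hh Vv n v h I z hz.1).2 j hj h3 false).1.2 h2
    exact hnc (j + 1) hj h4
  have key : ∃ z', m.Cb z z' ∧ Lab m n v z' u t := by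
    rcases hl with ⟨hu, hl, ht⟩ | ⟨hu, ha, hk, ht⟩ | ⟨hu, he, ht⟩ | ⟨hu, a, hf, ht⟩
    · obtain ⟨y, hy1, hy2⟩ := h.cbN hu hz hl hsd
      exact ⟨y, hy1, Or.inl ⟨hu, hy2, ht⟩⟩
    · obtain ⟨y, hy1, hy2, hy3⟩ := h.cbA hz hu ha hk hsd
      exact ⟨y, hy1, Or.inr (Or.inl ⟨hu, hy2, hy3, ht⟩)⟩
    · obtain ⟨y, hy1, hy2⟩ := h.cbE hz hu he hsd
      exact ⟨y, hy1, Or.inr (Or.inr (Or.inl ⟨hu, hy2, ht⟩))⟩
    · obtain ⟨y, hy1, hy2⟩ := h.cbF hz hu hf hsd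
      exact ⟨y, hy1, Or.inr (Or.inr (Or.inr ⟨hu, a, hy2, ht⟩))⟩
  obtain ⟨z', hc, hl'⟩ := key
  obtain ⟨c1, c2⟩ := cs α Q m U Hh Vv n v h I j hj z z' hz hc hp
  have hnc' := c2 hnc
  by_cases hx' : m.R false (n v) z' ↔ t
  · refine ⟨z', z, m.R false (n v) z, hc.1, hnc', c1, Or.inr (Or.inl ⟨hz, hc.2.1, hc.2.2.2.2, Iff.rfl⟩),
      fun hh => hx (hh.symm.trans hx')⟩
  · exact ⟨z', u, t, hc.1, hnc', c1, hl', hx'⟩

theorem pf_NS (st : T_ST) : T_NS := by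
  intro α Q m U Hh Vv n v h I
  have hfin : ¬ State m n v v := by
    rintro ⟨z, u, t, hz, hnc, hp, hl, hx⟩
    have hnv : m.N (n v) := I.num v le_rfl
    have h1 : m.SD z ↔ m.R false (n v) z := (h.uP hnv hz.1).2.2.2.2.2.2.2.2.2.2 hz.2 hp
    have key : t ↔ m.SD z := by
      rcases hl with ⟨hu, hl, ht⟩ | ⟨hu, ha, hk, ht⟩ | ⟨hu, he, ht⟩ | ⟨hu, a, hf, ht⟩
      · obtain ⟨y, hy1, hy2, hy3⟩ := h.tlN hu hz hl
        have e : y = n v := I.s v le_rfl true z y hz.1 hy1 hp hy2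
        subst e
        exact ht.trans hy3
      · obtain ⟨y, hy1, hy2, _, _, _, hy3⟩ := h.tlA hu hz (h.A_symm hz hu ha) hk
        have e : y = n v := I.s v le_rfl true z y hz.1 hy1 hp hy2
        subst e
        exact ht.trans hy3
      · obtain ⟨y, hy1, hy2, hy3⟩ := h.tlE hz hu he
        have e : y = n v := I.s v le_rfl true z y hz.1 hy1 hp hy2
        subst e
        exact ht.trans hy3
      · obtain ⟨y, hy1, hy2, hy3⟩ := h.tlF hz hu hf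
        have e : y = n v := I.s v le_rfl true z y hz.1 hy1 hp hy2
        subst e
        exact ht.trans hy3
    exact hx (h1.symm.trans key.symm)
  intro j hj
  obtain ⟨d, rfl⟩ : ∃ d, v = j + d := ⟨v - j, by omega⟩
  clear hj
  have key : ∀ d' ≤ d, State m n (j + d) j → State m n (j + d) (j + d') := by
    intro d' hd' hs
    induction d' with
    | zero => exact hs
    | succ d' ih =>
      exact st α Q m U Hh Vv n (j + d) h I (j + d') (by omega) (ih (by omega))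
  exact fun hs => hfin (key d le_rfl hs)

theorem not_zr {α Q : Type} {m : St α Q} {U : UT Q} {Hh Vv : Q → Q → Prop} {n : ℕ → α} {v : ℕ}
    (h : Ok m U Hh Vv) (I : IH m n v) {w : α} (hw : m.N w) (hne : ∀ k ≤ v, w ≠ n k) : ¬ m.Zr w := by
  intro hz
  have h0 := I.num 0 (Nat.zero_le _)
  rcases (h.uN hw h0).1 (hne 0 (Nat.zero_le _)) with h1 | h1
  · exact (h.uN hw h0).2.2.2.1 I.zr h1
  · exact (h.uN h0 hw).2.2.2.1 hz h1

theorem pf_SL (ns : T_NS) (rc : T_RC) : T_SL := by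
  intro α Q m U Hh Vv n v h I w z hw hne hz
  have hzr := not_zr h I hw hne
  -- the new climber
  have hnew : ∀ y, m.cl y → m.Z2 y → m.P false w y →
      m.P true (n 0) y ∧ NC m n v false y := by
    intro y hy1 hy2 hy3
    refine ⟨(h.uP (I.num 0 (Nat.zero_le _)) hy1.1).2.2.2.2.2.2.2.2.1 I.zr hy2, fun k hk hp => ?_⟩
    exact hne k hk (I.s k hk false y w hy1.1 hw hp hy3)
  have hw' : ∀ y, m.cl y → m.Z2 y → m.P false w y → (m.S (n v) w ↔ m.R false (n v) y) := by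
    intro y hy1 hy2 hy3
    obtain ⟨g1, g2⟩ := hnew y hy1 hy2 hy3
    by_contra hc
    exact ns α Q m U Hh Vv n v h I 0 (Nat.zero_le _)
      ⟨y, w, m.S (n v) w, hy1, g2, g1, Or.inl ⟨hw, hy3, Iff.rfl⟩, fun hh => hc hh.symm⟩
  have hG : ∀ a, m.gp z → m.P a w z → (m.S (n v) w ↔ m.R a (n v) z) := by
    intro a hg hp
    obtain ⟨y, hy1, hy2, hy3, hy4⟩ := h.stG hw hg hp hzr
    obtain ⟨g1, g2⟩ := hnew y hy1 hy2 hy3
    refine (hw' y hy1 hy2 hy3).trans ?_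
    by_contra hc
    exact ns α Q m U Hh Vv n v h I 0 (Nat.zero_le _)
      ⟨y, z, m.R a (n v) z, hy1, g2, g1, Or.inr (Or.inr (Or.inr ⟨hg, a, hy4, Iff.rfl⟩)), hc⟩
  refine ⟨fun hp => ?_, fun hg hp => hG false hg hp, fun hc hp hr => ?_⟩
  · by_cases hc : m.C z
    · obtain ⟨y, hy1, hy2, hy3, hy4⟩ := h.stC hw ⟨hz, hc⟩ hp hzr
      obtain ⟨g1, g2⟩ := hnew y hy1 hy2 hy3
      refine (hw' y hy1 hy2 hy3).trans ?_
      by_contra hcc
      exact ns α Q m U Hh Vv n v h I 0 (Nat.zero_le _)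
        ⟨y, z, m.R true (n v) z, hy1, g2, g1, Or.inr (Or.inr (Or.inl ⟨⟨hz, hc⟩, hy4, Iff.rfl⟩)), hcc⟩
    · exact hG true ⟨hz, hc⟩ hp
  · obtain ⟨r1, r2⟩ := rc α Q m U Hh Vv n v h I z hz
    obtain ⟨j, hj, hj2⟩ := r2 hr
    by_contra hs
    exact ns α Q m U Hh Vv n v h I j hj
      ⟨z, w, m.S (n v) w, hc, r1 false hr, hj2, Or.inl ⟨hw, hp, Iff.rfl⟩, fun hh => hs (hh.1 hr)⟩

theorem pf_SA (ns : T_NS) (ra : T_RA) (rb : T_RB) (rc : T_RC) : T_SA := by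
  intro α Q m U Hh Vv n v h I z u j hz hu ha hr hj hp
  by_contra hru
  have hne : z ≠ u := by
    rintro rfl
    exact hru hr
  obtain ⟨r1, r2⟩ := rc α Q m U Hh Vv n v h I z hz.1
  have hncz := r1 false hr
  obtain ⟨i, hi, hi2⟩ := r2 hr
  rcases h.A_K hz hu ha hne with hk | hk
  · -- K z u
    obtain ⟨b1, b2, b3⟩ := rb α Q m U Hh Vv n v h I u hu.1
    obtain ⟨c1, c2, c3⟩ := rb α Q m U Hh Vv n v h I z hz.1
    have hncu : NC m n v false u := by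
      intro k hk1 hk2
      obtain ⟨j', hj', hj2⟩ := b1 k hk1 hk2
      have e1 : j' = j := b3 j' j (by omega) hj true hj2 hp
      subst e1
      obtain ⟨y, hy1, hy2, hy3, hy4, _, _⟩ := h.tlA hz hu ha hk
      have e2 : y = n j' := I.s j' hj true u y hu.1 hy1 hp hy2
      subst e2
      have hij : i < j' := by
        rcases lt_trichotomy i j' with h1 | h1 | h1
        · exact h1
        · subst h1
          exact absurd hi2 hy3
        · exact absurd (c2 i hi true hi2 j' h1) hy4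
      exact hncz k hk1 (I.sA k hk1 i (by omega) u z hu hz (h.A_symm hz hu ha) hk2 hi2)
    exact ns α Q m U Hh Vv n v h I j hj
      ⟨u, z, m.R false (n v) z, hu, hncu, hp, Or.inr (Or.inl ⟨hz, h.A_symm hz hu ha, hk, Iff.rfl⟩),
        fun hh => hru (hh.2 hr)⟩
  · exact ns α Q m U Hh Vv n v h I i hi
      ⟨z, u, m.R false (n v) u, hz, hncz, hi2, Or.inr (Or.inl ⟨hu, ha, hk, Iff.rfl⟩),
        fun hh => hru (hh.1 hr)⟩

end Pool.Agent.H71.PX
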