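import Pool.Agent.H71.PX.Targets
import Pool.Agent.H8.JS.All

/-!
# Prefix classes of first-order spectra: the last target
-/

set_option autoImplicit false

namespace Pool.Agent.H71.PX

open Pool.Agent.H69.Sp Pool.Agent.H8.PL Pool.Agent.H8.JS

/-- one sentence -/
def T_NC : Prop := ∀ π : List Bool, ¬ Easy π → ∃ φ : QF, φ.Vars π.length ∧ φ.Bin ∧
  NEComplete (Spec π φ) ∧ (lang (Spec π φ) ∈ coNE ↔ NE = coNE) ∧
    (IsSpectrum (posCompl (Spec π φ)) ↔ NE = coNE)

end Pool.Agent.H71.PX
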