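import Pool.Agent.H71.PX.Defs
import Mathlib

/-!
# Sentences with unary symbols only
-/

set_option autoImplicit false

namespace Pool.Agent.H71.PX

/-- All relation symbols are unary. -/
def QF.Una : QF → Prop
  | .rel _ xs => xs.length = 1
  | .eq _ _ => True
  | .neg φ => φ.Una
  | .and φ ψ => φ.Una ∧ ψ.Una

/-- a bound for the relation symbols -/
def QF.bd : QF → ℕ
  | .rel i _ => i + 1
  | .eq _ _ => 0
  | .neg φ => φ.bd
  | .and φ ψ => max φ.bd ψ.bd

/-- the colour of an element -/
def colr {α : Type} (K : ℕ) (R : ℕ → List α → Prop) (a : α) : Fin K → Prop := fun i => R i [a]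

theorem sat_una {α β : Type} (R : ℕ → List α → Prop) (R' : ℕ → List β → Prop) (K k : ℕ)
    (φ : QF) (hU : φ.Una) (hK : φ.bd ≤ K) (hV : φ.Vars k) (v : ℕ → α) (w : ℕ → β)
    (he : ∀ i j, i < k → j < k → (v i = v j ↔ w i = w j))
    (hc : ∀ i < k, colr K R (v i) = colr K R' (w i)) : φ.Sat R v ↔ φ.Sat R' w := by
  induction φ with
  | rel i xs =>
    have h1 : xs.length = 1 := hU
    obtain ⟨x, rfl⟩ := List.length_eq_one_iff.1 h1
    have hx : x < k := hV x (by simp)
    have hi : i < K := by
      have : i + 1 ≤ K := hK
      omega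
    have := congrFun (hc x hx) ⟨i, hi⟩
    simp only [QF.Sat, List.map_cons, List.map_nil]
    exact iff_of_eq this
  | eq x y => exact he x y hV.1 hV.2
  | neg φ ih => exact not_congr (ih hU hK hV)
  | and φ ψ ih1 ih2 =>
    have h1 : max φ.bd ψ.bd ≤ K := hK
    exact and_congr (ih1 hU.1 (by omega) hV.1) (ih2 hU.2 (by omega) hV.2)

/-- the back and forth step -/
theorem step_una {α β : Type} [Finite α] [Finite β] {C : Type} (c : α → C) (c' : β → C) (q k : ℕ)
    (hq : k + 1 ≤ q)
    (hcard : ∀ x m, m ≤ q → (m ≤ {a | c a = x}.ncard ↔ m ≤ {b | c' b = x}.ncard))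
    (v : ℕ → α) (w : ℕ → β) (he : ∀ i j, i < k → j < k → (v i = v j ↔ w i = w j))
    (hc : ∀ i < k, c (v i) = c' (w i)) (a : α) :
    ∃ b : β, c a = c' b ∧ ∀ i < k, (v i = a ↔ w i = b) := by
  by_cases h : ∃ i < k, v i = a
  · obtain ⟨i, hi, rfl⟩ := h
    exact ⟨w i, hc i hi, fun j hj => he j i hj hi⟩
  push Not at h
  -- the elements of the colour of `a`
  classical
  let I : Finset ℕ := (Finset.range k).filter fun i => c (v i) = c a
  let S : Finset α := I.image v
  let S' : Finset β := I.image w
  have hI : ∀ i ∈ I, i < k ∧ c (v i) = c a := fun i hi => by simpa [I] using hi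
  have hSS : S'.card = S.card := by
    let f : S → S' := fun x => ⟨w (Finset.mem_image.1 x.2).choose,
      Finset.mem_image_of_mem _ (Finset.mem_image.1 x.2).choose_spec.1⟩
    have hf : Function.Bijective f := by
      constructor
      · intro x y hxy
        have hx := (Finset.mem_image.1 x.2).choose_spec
        have hy := (Finset.mem_image.1 y.2).choose_spec
        have h1 : w (Finset.mem_image.1 x.2).choose = w (Finset.mem_image.1 y.2).choose :=
          congrArg Subtype.val hxy
        have h2 := (he _ _ (hI _ hx.1).1 (hI _ hy.1).1).2 h1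
        rw [hx.2, hy.2] at h2
        exact Subtype.ext h2
      · rintro ⟨y, hy⟩
        obtain ⟨i, hi, rfl⟩ := Finset.mem_image.1 hy
        refine ⟨⟨v i, Finset.mem_image_of_mem _ hi⟩, ?_⟩
        have hx := (Finset.mem_image.1 (Finset.mem_image_of_mem v hi)).choose_spec
        exact Subtype.ext ((he _ _ (hI _ hx.1).1 (hI _ hi).1).1 hx.2)
    have := Fintype.card_of_bijective hf
    simpa using this.symm
  have hSle : S.card + 1 ≤ q := by
    have h1 : S.card ≤ I.card := Finset.card_image_le
    have h2 : I.card ≤ (Finset.range k).card := Finset.card_filter_le _ _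
    rw [Finset.card_range] at h2
    omega
  have haS : a ∉ S := by
    intro ha
    obtain ⟨i, hi, hv⟩ := Finset.mem_image.1 ha
    exact h i (hI i hi).1 hv
  have h3 : S.card + 1 ≤ {a' | c a' = c a}.ncard := by
    have h4 : ((insert a S : Finset α) : Set α) ⊆ {a' | c a' = c a} := by
      intro x hx
      rcases Finset.mem_insert.1 (Finset.mem_coe.1 hx) with rfl | hx
      · rfl
      · obtain ⟨i, hi, rfl⟩ := Finset.mem_image.1 hx
        exact (hI i hi).2
    have h5 := Set.ncard_le_ncard h4 (Set.toFinite _)
    rw [Set.ncard_coe_finset, Finset.card_insert_of_notMem haS] at h5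
    exact h5
  have h6 := (hcard (c a) _ hSle).1 h3
  have h7 : ∃ b ∈ {b | c' b = c a}, b ∉ (S' : Set β) := by
    refine Set.exists_mem_notMem_of_ncard_lt_ncard ?_ (Set.toFinite _)
    rw [Set.ncard_coe_finset]
    omega
  obtain ⟨b, hb, hbS⟩ := h7
  refine ⟨b, hb.symm, fun i hi => ⟨fun hv => (h i hi hv).elim, fun hw => ?_⟩⟩
  exfalso
  apply hbS
  rw [← hw]
  refine Finset.mem_coe.2 (Finset.mem_image_of_mem _ ?_)
  simp only [I, Finset.mem_filter, Finset.mem_range]
  exact ⟨hi, by rw [hc i hi, hw]; exact hb⟩

theorem pre_una {α β : Type} [Finite α] [Finite β] (R : ℕ → List α → Prop) (R' : ℕ → List β → Prop)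
    (K q : ℕ) (φ : QF) (hU : φ.Una) (hK : φ.bd ≤ K) (hV : φ.Vars q)
    (hcard : ∀ x m, m ≤ q → (m ≤ {a | colr K R a = x}.ncard ↔ m ≤ {b | colr K R' b = x}.ncard)) :
    ∀ (π : List Bool) (k : ℕ) (v : ℕ → α) (w : ℕ → β), k + π.length = q →
    (∀ i j, i < k → j < k → (v i = v j ↔ w i = w j)) →
    (∀ i < k, colr K R (v i) = colr K R' (w i)) → (Pre R φ π k v ↔ Pre R' φ π k w) := by
  intro π
  induction π with
  | nil =>
    intro k v w hk he hc
    have hk' : k = q := hk
    subst hk'
    exact sat_una R R' K k φ hU hK hV v w he hc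
  | cons b π ih =>
    intro k v w hk he hc
    have hk1 : k + 1 + π.length = q := by
      rw [← hk, List.length_cons]
      omega
    have ext : ∀ (a : α) (b : β), colr K R a = colr K R' b → (∀ i < k, (v i = a ↔ w i = b)) →
        (Pre R φ π (k + 1) (Function.update v k a) ↔ Pre R' φ π (k + 1) (Function.update w k b)) := by
      intro a b h1 h2
      refine ih (k + 1) _ _ hk1 ?_ ?_
      · intro i j hi hj
        rcases Nat.lt_succ_iff_lt_or_eq.1 hi with hi | rfl <;>
          rcases Nat.lt_succ_iff_lt_or_eq.1 hj with hj | rfl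
        · rw [Function.update_of_ne hi.ne, Function.update_of_ne hj.ne, Function.update_of_ne hi.ne,
            Function.update_of_ne hj.ne]
          exact he i j hi hj
        · rw [Function.update_of_ne hi.ne, Function.update_of_ne hi.ne, Function.update_self,
            Function.update_self]
          exact h2 i hi
        · rw [Function.update_of_ne hj.ne, Function.update_of_ne hj.ne, Function.update_self,
            Function.update_self, eq_comm, h2 j hj, eq_comm]
        · simp
      · intro i hi
        rcases Nat.lt_succ_iff_lt_or_eq.1 hi with hi | rfl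
        · rw [Function.update_of_ne hi.ne, Function.update_of_ne hi.ne]
          exact hc i hi
        · rw [Function.update_self, Function.update_self]
          exact h1
    have fwd : ∀ a, ∃ b, colr K R a = colr K R' b ∧ ∀ i < k, (v i = a ↔ w i = b) :=
      step_una _ _ q k (by omega) hcard v w he hc
    have bwd : ∀ b, ∃ a, colr K R a = colr K R' b ∧ ∀ i < k, (v i = a ↔ w i = b) := by
      intro b
      obtain ⟨a, h1, h2⟩ := step_una (colr K R') (colr K R) q k (by omega)
        (fun x m hm => (hcard x m hm).symm) w v (fun i j hi hj => (he i j hi hj).symm)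
        (fun i hi => (hc i hi).symm) b
      exact ⟨a, h1.symm, fun i hi => (h2 i hi).symm⟩
    cases b with
    | true =>
      constructor
      · intro h b
        obtain ⟨a, h1, h2⟩ := bwd b
        exact (ext a b h1 h2).1 (h a)
      · intro h a
        obtain ⟨b, h1, h2⟩ := fwd a
        exact (ext a b h1 h2).2 (h b)
    | false =>
      constructor
      · rintro ⟨a, h⟩
        obtain ⟨b, h1, h2⟩ := fwd a
        exact ⟨b, (ext a b h1 h2).1 h⟩
      · rintro ⟨b, h⟩
        obtain ⟨a, h1, h2⟩ := bwd b
        exact ⟨a, (ext a b h1 h2).2 h⟩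

/-- one element more or less -/
theorem core_una {n : ℕ} (hn : 0 < n) (R : ℕ → List (Fin (n + 1)) → Prop) (K : ℕ)
    (π : List Bool) (φ : QF) (hU : φ.Una) (hK : φ.bd ≤ K) (hV : φ.Vars π.length)
    (e : Fin n → Fin (n + 1)) (he : Function.Injective e) (a0 : Fin (n + 1))
    (hr : ∀ a, a ≠ a0 → ∃ x, e x = a)
    (hq : π.length ≤ {x : Fin n | colr K R (e x) = colr K R a0}.ncard) :
    (∀ v : ℕ → Fin (n + 1), Pre R φ π 0 v) ↔
      ∀ v : ℕ → Fin n, Pre (fun i l => R i (l.map e)) φ π 0 v := by
  have hcard : ∀ x m, m ≤ π.length → (m ≤ {a | colr K R a = x}.ncard ↔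
      m ≤ {b | colr K (fun i l => R i (l.map e)) b = x}.ncard) := by
    intro x m hm
    have hs : {b : Fin n | colr K (fun i l => R i (l.map e)) b = x} = {b | colr K R (e b) = x} := rfl
    have hi : e '' {b | colr K R (e b) = x} ⊆ {a | colr K R a = x} := by
      rintro _ ⟨b, hb, rfl⟩
      exact hb
    rw [hs]
    constructor
    · intro h
      by_cases hx : x = colr K R a0
      · subst hx
        exact hm.trans hq
      · refine h.trans ?_
        rw [← Set.ncard_image_of_injective _ he]
        refine Set.ncard_le_ncard ?_ (Set.toFinite _)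
        intro a ha
        have hne : a ≠ a0 := by
          rintro rfl
          exact hx ha.symm
        obtain ⟨y, rfl⟩ := hr a hne
        exact ⟨y, ha, rfl⟩
    · intro h
      refine h.trans ?_
      rw [← Set.ncard_image_of_injective _ he]
      exact Set.ncard_le_ncard hi (Set.toFinite _)
  have key := fun v w => pre_una R (fun i l => R i (l.map e)) K π.length φ hU hK hV hcard π 0 v w
    (by simp) (fun i j hi => absurd hi (by omega)) (fun i hi => absurd hi (by omega))
  constructor
  · exact fun h v => (key (fun _ => a0) v).1 (h _)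
  · exact fun h v => (key v (fun _ => ⟨0, hn⟩)).2 (h _)

theorem pigeon {n : ℕ} {C : Type} [Finite C] (c : Fin n → C) (q : ℕ) (h : Nat.card C * q < n) :
    ∃ x, q < {a | c a = x}.ncard := by
  classical
  have := Fintype.ofFinite C
  by_contra hh
  push Not at hh
  have h1 : (Finset.univ : Finset (Fin n)).card ≤ q * (Finset.univ : Finset C).card := by
    refine Finset.card_le_mul_card_image_of_maps_to (f := c) (fun a _ => Finset.mem_univ _) q ?_
    intro b _
    have h2 := hh b
    have h3 : {a | c a = b} = ((Finset.univ.filter fun a => c a = b : Finset (Fin n)) : Set (Fin n)) := by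
      ext a
      simp
    rw [h3, Set.ncard_coe_finset] at h2
    exact h2
  rw [Finset.card_univ, Finset.card_univ, Fintype.card_fin, ← Nat.card_eq_fintype_card, mul_comm] at h1
  omega

/-- Sentences with unary symbols only have finite or cofinite spectra. -/
theorem una_fin (π : List Bool) (φ : QF) (hV : φ.Vars π.length) (hU : φ.Una) :
    (Spec π φ).Finite ∨ (Spec π φ)ᶜ.Finite := by
  set K := φ.bd
  set M := Nat.card (Fin K → Prop) * (π.length + 1) + 1
  have hM : 0 < M := Nat.succ_pos _
  have key : ∀ n, M ≤ n → (n ∈ Spec π φ ↔ n + 1 ∈ Spec π φ) := by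
    intro n hn
    have hn0 : 0 < n := by omega
    constructor
    · rintro ⟨_, R, hR⟩
      obtain ⟨x, hx⟩ := pigeon (colr K R) (π.length + 1) (by omega)
      have hne : {a | colr K R a = x}.Nonempty := by
        rw [← Set.ncard_pos (Set.toFinite _)]
        omega
      obtain ⟨a0, ha0⟩ := hne
      let g : Fin (n + 1) → Fin n := fun y => if hy : y.val < n then ⟨y.val, hy⟩ else a0
      have hg : ∀ y : Fin n, g y.castSucc = y := fun y => dif_pos y.2
      have hg2 : g (Fin.last n) = a0 := dif_neg (lt_irrefl n)
      have h1 := (core_una hn0 (fun i l => R i (l.map g)) K π φ hU le_rfl hV Fin.castSucc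
        (Fin.castSucc_injective n) (Fin.last n) (fun a ha => ⟨a.castPred ha, by simp⟩) ?_).2 ?_
      · exact ⟨by omega, _, h1⟩
      · have e : {x : Fin n | colr K (fun i l => R i (List.map g l)) x.castSucc =
            colr K (fun i l => R i (List.map g l)) (Fin.last n)} = {a | colr K R a = x} := by
          ext y
          have e1 : colr K (fun i l => R i (List.map g l)) y.castSucc = colr K R y := by
            funext i
            simp only [colr, List.map_cons, List.map_nil, hg]
          have e2 : colr K (fun i l => R i (List.map g l)) (Fin.last n) = x := by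
            rw [← ha0]
            funext i
            simp only [colr, List.map_cons, List.map_nil, hg2]
          change colr K (fun i l => R i (List.map g l)) y.castSucc = _ ↔ colr K R y = x
          rw [e1, e2]
        rw [e]
        omega
      · intro v
        have e : (fun (i : ℕ) (l : List (Fin n)) => R i (List.map g (List.map Fin.castSucc l))) = R := by
          funext i l
          have : g ∘ Fin.castSucc = id := funext hg
          rw [List.map_map, this, List.map_id]
        simp only [e]
        exact hR v
    · rintro ⟨_, R, hR⟩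
      obtain ⟨x, hx⟩ := pigeon (colr K R) (π.length + 1) (by omega)
      have hne : {a | colr K R a = x}.Nonempty := by
        rw [← Set.ncard_pos (Set.toFinite _)]
        omega
      obtain ⟨a0, ha0⟩ := hne
      have h1 := (core_una hn0 R K π φ hU le_rfl hV a0.succAbove Fin.succAbove_right_injective a0
        (fun a ha => Fin.exists_succAbove_eq ha) ?_).1 hR
      · exact ⟨by omega, _, h1⟩
      · have h2 : {a | colr K R a = x} ⊆
            insert a0 (a0.succAbove '' {y : Fin n | colr K R (a0.succAbove y) = colr K R a0}) := by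
          intro a ha
          by_cases h : a = a0
          · exact Set.mem_insert_iff.2 (Or.inl h)
          · obtain ⟨y, rfl⟩ := Fin.exists_succAbove_eq h
            exact Set.mem_insert_iff.2 (Or.inr ⟨y, ha.trans ha0.symm, rfl⟩)
        have h3 := Set.ncard_le_ncard h2 (Set.toFinite _)
        have h4 := Set.ncard_insert_le a0
          (a0.succAbove '' {y : Fin n | colr K R (a0.succAbove y) = colr K R a0})
        rw [Set.ncard_image_of_injective _ Fin.succAbove_right_injective] at h4
        omega
  have key2 : ∀ d, (M ∈ Spec π φ ↔ M + d ∈ Spec π φ) := by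
    intro d
    induction d with
    | zero => rfl
    | succ d ih => exact ih.trans (key (M + d) (by omega))
  by_cases h : M ∈ Spec π φ
  · right
    refine (Set.finite_Iio M).subset fun n hn => ?_
    by_contra h2
    rw [Set.mem_Iio, not_lt] at h2
    obtain ⟨d, rfl⟩ := Nat.exists_eq_add_of_le h2
    exact hn ((key2 d).1 h)
  · left
    refine (Set.finite_Iio M).subset fun n hn => ?_
    by_contra h2
    rw [Set.mem_Iio, not_lt] at h2
    obtain ⟨d, rfl⟩ := Nat.exists_eq_add_of_le h2
    exact h ((key2 d).2 hn)

end Pool.Agent.H71.PX
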