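import Pool.Agent.H1.PX.RA
import Pool.Agent.H12.PX.QT
import Pool.Agent.H18.PX.MC
import Pool.Agent.H18.PX.MG
import Pool.Agent.H18.PX.MN
import Pool.Agent.H18.PX.MP
import Pool.Agent.H18.PX.MU
import Pool.Agent.H18.PX.MX
import Pool.Agent.H19.PX.TR
import Pool.Agent.H32.PX.A2
import Pool.Agent.H32.PX.EN
import Pool.Agent.H32.PX.QA
import Pool.Agent.H33.PX.E1
import Pool.Agent.H33.PX.E2
import Pool.Agent.H33.PX.SP
import Pool.Agent.H35.PX.IS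
import Pool.Agent.H38.PX.HA
import Pool.Agent.H38.PX.NC
import Pool.Agent.H38.PX.QU
import Pool.Agent.H4.PX.Z4
import Pool.Agent.H52.PX.EB
import Pool.Agent.H52.PX.EM
import Pool.Agent.H52.PX.HE
import Pool.Agent.H52.PX.SE
import Pool.Agent.H59.PX.HS
import Pool.Agent.H59.PX.RB
import Pool.Agent.H59.PX.RC
import Pool.Agent.H59.PX.UQ
import Pool.Agent.H63.PX.TP
import Pool.Agent.H70.PX.A1
import Pool.Agent.H71.PX.FO
import Pool.Agent.H71.PX.I0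
import Pool.Agent.H71.PX.EC
import Pool.Agent.H71.PX.PW
import Pool.Agent.H71.PX.UN
import Pool.Agent.H71.PX.Stt
import Pool.Agent.H71.PX.Targets2
import Pool.Agent.H75.PX.Z1
import Pool.Agent.H75.PX.Z2
import Pool.Agent.H75.PX.Z3
import Pool.Agent.H79.PFC.Z5
import Pool.Agent.H86.PX.NW
import Pool.Agent.H89.PX.AX
import Pool.Agent.H8.PL.All

/-!
# Prefix classes of first-order spectra: the theorem
-/

set_option autoImplicit false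

namespace Pool.Agent.H71.PX

open Pool.Agent Pool.Agent.H69.Sp Pool.Agent.H8.PL Pool.Agent.H8.JS

/-! ### the rows -/

theorem c_RA : T_RA := H1.PX.RA.pf_RA
theorem c_RB : T_RB := H59.PX.RB.pf_RB c_RA
theorem c_RC : T_RC := H59.PX.RC.pf_RC c_RA
theorem c_CS : T_CS := pf_CS c_RA c_RB
theorem c_ST : T_ST := pf_ST c_RA c_CS
theorem c_NS : T_NS := pf_NS c_ST
theorem c_SL : T_SL := pf_SL c_NS c_RC
theorem c_UQ : T_UQ := H59.PX.UQ.pf_UQ c_SL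
theorem c_SA : T_SA := pf_SA c_NS c_RA c_RB c_RC
theorem c_SE : T_SE := H52.PX.pf_SE c_NS c_RC
theorem c_NW : T_NW := H86.PX.NW.pf_NW c_RA c_RC c_UQ
theorem c_IS : T_IS := H35.PX.IS.pf_IS c_RC c_SL c_UQ c_SA c_SE c_NW
theorem c_Z1 : T_Z1 := H75.PX.pf_Z1 c_RA c_RB
theorem c_Z2 : T_Z2 := H75.PX.pf_Z2 c_RA c_RB c_CS
theorem c_Z3 : T_Z3 := H75.PX.pf_Z3 c_RB
theorem c_Z4 : T_Z4 := H4.PX.Z4.pf_Z4 c_RB c_Z1 c_Z2 c_Z3
theorem c_MO : T_MO :=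
  pf_MO H18.PX.MU.pf_MU H18.PX.MN.pf_MN H18.PX.MP.pf_MP H18.PX.MG.pf_MG H18.PX.MC.pf_MC
    H18.PX.MX.pf_MX
theorem c_EM : T_EM := H52.PX.pf_EM
theorem c_CM : T_CM := H19.PX.pf_CM
theorem c_E1 : T_E1 := H33.PX.E1.pf_E1 H19.PX.pf_EX H89.PX.AX.pf_AX H19.PX.pf_SB
theorem c_E2 : T_E2 := H33.PX.E2.pf_E2 H19.PX.pf_EX H52.PX.pf_EB H19.PX.pf_SB
theorem c_EF : T_EF := H19.PX.pf_EF c_E1 c_E2
theorem c_SP : T_SP := H33.PX.SP.pf_SP

theorem c_Z5 : T_Z5 := H79.PFC.pf_Z5 c_RA c_RB c_Z2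
theorem c_HA : T_HA := H38.PX.HA.pf_HA H70.PX.A1.pf_A1 H32.PX.A2.pf_A2 H32.PX.QA.pf_QA H32.PX.EN.pf_EN

theorem c_TR : T_TR := H19.PX.pf_TR pf_I0 c_IS
theorem c_FO : T_FO := pf_FO c_TR c_Z4 c_Z5
theorem c_HE : T_HE :=
  H52.PX.pf_HE c_FO c_MO H38.PX.QU.pf_QU H12.PX.QT.pf_QT H32.PX.EN.pf_EN H63.PX.pf_TP
theorem c_NC : T_NC := H38.PX.NC.pf_NC c_HE c_HA c_EM c_CM c_SP

/-- The powers of a spectrum are a spectrum with the prefix `π`. -/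
theorem px_pow : ∀ π : List Bool, ¬ Easy π →
    ∀ S, IsSpectrum S → ∃ (φ : QF) (r : ℕ), φ.Vars π.length ∧ φ.Bin ∧ 0 < r ∧
      Spec π φ = (fun m => m ^ r) '' S := by
  intro π hπ S hS
  obtain ⟨r, Q, U, Hh, Vv, hr, hQ, hgrid⟩ := z_sq S hS
  have hr0 : r ≠ 0 := by omega
  have hpos : ∀ m ∈ S, 0 < m := by
    obtain ⟨L, _, _, φ, rfl⟩ := hS
    exact fun m hm => hm.1
  rcases c_CM π hπ with hsub | hsub
  · obtain ⟨φ, hv, hb, hs⟩ := c_HE Q U Hh Vv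
    obtain ⟨ψ, hv', hb', hs'⟩ := c_EM [true, true, false] π φ hsub hv
    refine ⟨ψ, 2 * r, hv', hb' hb, by omega, ?_⟩
    ext M
    rw [hs', hs]
    constructor
    · rintro ⟨k, hk, rfl, hk2⟩
      obtain ⟨m, hm, e, _⟩ := (hgrid k k hk hk).1 hk2
      exact ⟨m, hm, by simp only [e]; rw [← pow_mul, mul_comm]⟩
    · rintro ⟨m, hm, rfl⟩
      refine ⟨m ^ r, Nat.pow_pos (hpos m hm), by simp only []; rw [← pow_mul, mul_comm], ?_⟩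
      exact (hgrid _ _ (Nat.pow_pos (hpos m hm)) (Nat.pow_pos (hpos m hm))).2 ⟨m, hm, rfl, rfl⟩
  · obtain ⟨φ, hv, hb, hs⟩ := c_HA Q U Hh Vv
    obtain ⟨ψ, hv', hb', hs'⟩ := c_EM [true, false, true] π φ hsub hv
    refine ⟨ψ, r, hv', hb' hb, hr, ?_⟩
    ext M
    rw [hs', hs]
    constructor
    · rintro ⟨hM, hk2⟩
      obtain ⟨m, hm, e, _⟩ := (hgrid M M hM hM).1 hk2
      exact ⟨m, hm, e.symm⟩
    · rintro ⟨m, hm, rfl⟩
      refine ⟨Nat.pow_pos (hpos m hm), ?_⟩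
      exact (hgrid _ _ (Nat.pow_pos (hpos m hm)) (Nat.pow_pos (hpos m hm))).2 ⟨m, hm, rfl, rfl⟩

/-- The theorem. -/
theorem px_main :
    (∀ (π : List Bool) (φ : QF), φ.Vars π.length →
      (IsSpectrum (Spec π φ) ∧ lang (Spec π φ) ∈ NE) ∧
      (Easy π ∨ φ.Una →
        ((Spec π φ).Finite ∨ (Spec π φ)ᶜ.Finite) ∧ IsSpectrum (posCompl (Spec π φ)))) ∧
    ∀ π : List Bool, ¬ Easy π →
      ([true, true, false].Sublist π ∨ [true, false, true].Sublist π) ∧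
      (∀ S : Set ℕ, IsSpectrum S → ∃ (φ : QF) (r : ℕ), φ.Vars π.length ∧ φ.Bin ∧ 0 < r ∧
        Spec π φ = (fun m => m ^ r) '' S ∧
        (IsSpectrum (posCompl (Spec π φ)) ↔ IsSpectrum (posCompl S))) ∧
      ∃ φ : QF, φ.Vars π.length ∧ φ.Bin ∧ NEComplete (Spec π φ) ∧
        (lang (Spec π φ) ∈ coNE ↔ NE = coNE) ∧
        (IsSpectrum (posCompl (Spec π φ)) ↔ NE = coNE) := by
  refine ⟨fun π φ hV => ⟨⟨c_SP π φ hV, j_jb _ (c_SP π φ hV)⟩, fun h => ?_⟩, fun π hπ =>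
    ⟨c_CM π hπ, fun S hS => ?_, c_NC π hπ⟩⟩
  · have hf : (Spec π φ).Finite ∨ (Spec π φ)ᶜ.Finite := by
      rcases h with h | h
      · exact c_EF π φ h hV
      · exact una_fin π φ hV h
    exact ⟨hf, isSpectrum_posCompl hf⟩
  · obtain ⟨φ, r, h1, h2, h3, h4⟩ := px_pow π hπ S hS
    refine ⟨φ, r, h1, h2, h3, h4, ?_⟩
    rw [h4]
    exact posCompl_pow h3

end Pool.Agent.H71.PX
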