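import Pool.Agent.H71.PX.Defs

/-!
# Prefix classes: the axioms one by one, and the calculus of conditions
-/

set_option autoImplicit false

namespace Pool.Agent.H71.PX

section
variable {α Q : Type} {m : St α Q} {U : Bool → Bool → Bool → Bool → Q → Prop} {Hh Vv : Q → Q → Prop}

theorem Ok.un (h : Ok m U Hh Vv) (x y : α) : Un m U Hh Vv x y := by
  obtain ⟨z, h1, _⟩ := h x y
  exact h1

theorem Ok.tk (h : Ok m U Hh Vv) (x y : α) : ∃ z, Tk m Hh Vv x y z := by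
  obtain ⟨z, _, h2⟩ := h x y
  exact ⟨z, h2⟩

theorem Ok.uN (h : Ok m U Hh Vv) {x y : α} (hx : m.N x) (hy : m.N y) :
    (x ≠ y → m.Lt x y ∨ m.Lt y x) ∧ (m.Lt x y → ¬ m.Lt y x) ∧ (m.S x y → m.Lt x y) ∧
    (m.Zr y → ¬ m.Lt x y) ∧ (m.Tp x → ¬ m.Lt x y) ∧ (∃ q, m.T q x y) ∧
    (∀ q, m.T q x y → ∀ b1 b2 b3 b4 : Bool, (b1 = true ↔ m.Zr x) → (b2 = true ↔ m.Tp x) →
      (b3 = true ↔ m.Zr y) → (b4 = true ↔ m.Tp y) → U b1 b2 b3 b4 q) ∧
    (m.S x y → ∀ q q', (m.T q x x → m.T q' y x → Hh q q') ∧ (m.T q x x → m.T q' x y → Vv q q')) :=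
  (h.un x y).1 hx hy

theorem Ok.uP (h : Ok m U Hh Vv) {w z : α} (hw : m.N w) (hz : ¬ m.N z) :
    (∀ a, m.P a w z → ¬ m.L a w z) ∧ (∀ a, m.R a w z → m.L a w z) ∧
    (m.L true w z → m.L false w z) ∧ (m.P true w z → m.L false w z) ∧
    (m.R false w z → ¬ m.L true w z) ∧ (m.Zr w → m.L false w z) ∧
    (m.Zr w → m.P true w z ∨ m.L true w z) ∧ (m.P true w z → (m.Z2 z ↔ m.Zr w)) ∧
    (m.Zr w → m.Z2 z → m.P true w z) ∧ (m.Tp w → ¬ m.L false w z) ∧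
    (m.C z → m.P true w z → (m.SD z ↔ m.R false w z)) :=
  (h.un w z).2.1 hw hz

theorem Ok.A_symm (h : Ok m U Hh Vv) {z u : α} (hz : m.cl z) (hu : m.cl u) (ha : m.A z u) :
    m.A u z := ((h.un z u).2.2 hz hu).1 ha

theorem Ok.A_K (h : Ok m U Hh Vv) {z u : α} (hz : m.cl z) (hu : m.cl u) (ha : m.A z u)
    (hne : z ≠ u) : m.K z u ∨ m.K u z := ((h.un z u).2.2 hz hu).2 ha hne

/-- `L a w z` gives `L false w z` -/
theorem Ok.L1 (h : Ok m U Hh Vv) {w z : α} (hw : m.N w) (hz : ¬ m.N z) {a : Bool}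
    (hl : m.L a w z) : m.L false w z := by
  cases a
  · exact hl
  · exact (h.uP hw hz).2.2.1 hl

/-- the successor exists -/
theorem Ok.succ (h : Ok m U Hh Vv) {w : α} (hw : m.N w) (ht : ¬ m.Tp w) : ∃ z, m.N z ∧ m.S w z := by
  obtain ⟨z, hz⟩ := h.tk w w
  exact ⟨z, (hz.1 rfl).1 hw ht⟩

/-- zero exists -/
theorem Ok.zero_of_pair (h : Ok m U Hh Vv) {w : α} (hw : ¬ m.N w) : ∃ z, m.N z ∧ m.Zr z := by
  obtain ⟨z, hz⟩ := h.tk w w
  exact ⟨z, (hz.1 rfl).2.2 hw⟩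

theorem Ok.zero_of_top (h : Ok m U Hh Vv) {w : α} (hw : m.N w) (ht : m.Tp w) :
    ∃ z, m.N z ∧ m.Zr z := by
  obtain ⟨z, hz⟩ := h.tk w w
  exact ⟨z, (hz.1 rfl).2.1 hw ht⟩

/-- task N,N, `x < y` -/
theorem Ok.nn (h : Ok m U Hh Vv) {x y : α} (hx : m.N x) (hy : m.N y) (hl : m.Lt x y) :
    ∃ z, m.N z ∧ m.S x z ∧ (z = y ∨ m.Lt z y) ∧
      ∀ q q', (m.T q x y → m.T q' z y → Hh q q') ∧ (m.T q y x → m.T q' y z → Vv q q') := by
  obtain ⟨z, hz⟩ := h.tk x y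
  exact ⟨z, (hz.2.1 hx hy).1 hl⟩

/-- task N,N, `y < x`: the ground pair -/
theorem Ok.gnd (h : Ok m U Hh Vv) {x y : α} (hx : m.N x) (hy : m.N y) (hl : m.Lt y x) :
    ∃ z, m.gp z ∧ m.P false x z ∧ m.P true y z ∧
      ∀ q, (m.U1 q z ↔ m.T q x y) ∧ (m.U2 q z ↔ m.T q y x) := by
  obtain ⟨z, hz⟩ := h.tk x y
  exact ⟨z, (hz.2.1 hx hy).2 hl⟩

/-- task RUN -/
theorem Ok.run (h : Ok m U Hh Vv) {w z : α} (hw : m.N w) (hz : ¬ m.N z) (hl : m.L false w z) :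
    ∃ y, m.N y ∧ m.S w y ∧
      ∀ a, (m.P a y z ↔ m.R a w z) ∧ (m.L a y z ↔ m.L a w z ∧ ¬ m.R a w z) := by
  obtain ⟨y, hy⟩ := h.tk w z
  exact ⟨y, (hy.2.2.1 hw hz).1 hl⟩

/-- task TL, the number first -/
theorem Ok.tlN (h : Ok m U Hh Vv) {w z : α} (hw : m.N w) (hz : m.cl z) (hp : m.P false w z) :
    ∃ y, m.N y ∧ m.P true y z ∧ (m.S y w ↔ m.SD z) := by
  obtain ⟨y, hy⟩ := h.tk w z
  exact ⟨y, (hy.2.2.1 hw hz.1).2 hz.2 hp⟩

/-- task START for a climber -/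
theorem Ok.stC (h : Ok m U Hh Vv) {w z : α} (hw : m.N w) (hz : m.cl z) (hp : m.P true w z)
    (h0 : ¬ m.Zr w) : ∃ y, m.cl y ∧ m.Z2 y ∧ m.P false w y ∧ m.E y z := by
  obtain ⟨y, hy⟩ := h.tk z w
  exact ⟨y, (hy.2.2.2.1 hz hw).1 hp h0⟩

/-- climbing, with a number -/
theorem Ok.cbN (h : Ok m U Hh Vv) {w z : α} (hw : m.N w) (hz : m.cl z) (hp : m.P false w z)
    (h0 : ¬ m.SD z) : ∃ y, m.Cb z y ∧ m.P false w y := by
  obtain ⟨y, hy⟩ := h.tk z w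
  exact ⟨y, (hy.2.2.2.1 hz hw).2.1 hp h0⟩

/-- the predecessor -/
theorem Ok.prd (h : Ok m U Hh Vv) {w z : α} (hw : m.N w) (hz : m.cl z) (hp : m.Pd w z)
    (hl : m.L false w z) : ∃ y, m.N y ∧ m.S y w ∧ m.P true y z := by
  obtain ⟨y, hy⟩ := h.tk z w
  exact ⟨y, (hy.2.2.2.1 hz hw).2.2 hp hl⟩

/-- task START for a ground pair -/
theorem Ok.stG (h : Ok m U Hh Vv) {w g : α} {a : Bool} (hw : m.N w) (hg : m.gp g) (hp : m.P a w g)
    (h0 : ¬ m.Zr w) : ∃ y, m.cl y ∧ m.Z2 y ∧ m.P false w y ∧ m.F a y g := by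
  obtain ⟨y, hy⟩ := h.tk g w
  have h1 := (hy.2.2.2.2.1 hg hw).1 ⟨a, hp⟩ h0
  exact ⟨y, h1.1, h1.2.1, h1.2.2.1, h1.2.2.2 a hp⟩

/-- the check of the tiles -/
theorem Ok.til (h : Ok m U Hh Vv) {w g : α} (hw : m.N w) (hg : m.gp g) (hr : m.R false w g)
    (hp : ¬ m.P true w g) : ∃ z, m.N z ∧ m.P true z g ∧
      ∀ q q', (m.T q w z → m.U1 q' g → Hh q q') ∧ (m.T q z w → m.U2 q' g → Vv q q') := by
  obtain ⟨y, hy⟩ := h.tk g w
  exact ⟨y, (hy.2.2.2.2.1 hg hw).2 hr hp⟩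

/-- climbing, with a climber with the same first coordinate -/
theorem Ok.cbA (h : Ok m U Hh Vv) {z u : α} (hz : m.cl z) (hu : m.cl u) (ha : m.A z u)
    (hk : m.K u z) (h0 : ¬ m.SD z) : ∃ y, m.Cb z y ∧ m.A y u ∧ m.K u y := by
  obtain ⟨y, hy⟩ := h.tk z u
  exact ⟨y, (hy.2.2.2.2.2.1 hz hu).1 ha hk h0⟩

/-- task TL, two climbers with the same first coordinate, the smaller one `z` first -/
theorem Ok.tlA (h : Ok m U Hh Vv) {z u : α} (hz : m.cl z) (hu : m.cl u) (ha : m.A z u)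
    (hk : m.K z u) : ∃ y, m.N y ∧ m.P true y u ∧ ¬ m.P true y z ∧ ¬ m.L true y z ∧
      (m.B z u → m.Pd y z ∧ m.L false y z) ∧ (m.R false y z ↔ m.SD u) := by
  obtain ⟨y, hy⟩ := h.tk z u
  exact ⟨y, (hy.2.2.2.2.2.1 hz hu).2.1 ha hk⟩

/-- climbing, label `E` -/
theorem Ok.cbE (h : Ok m U Hh Vv) {z u : α} (hz : m.cl z) (hu : m.cl u) (he : m.E z u)
    (h0 : ¬ m.SD z) : ∃ y, m.Cb z y ∧ m.E y u := by
  obtain ⟨y, hy⟩ := h.tk z u
  exact ⟨y, (hy.2.2.2.2.2.1 hz hu).2.2.1 he h0⟩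

/-- task TL, label `E z u` -/
theorem Ok.tlE (h : Ok m U Hh Vv) {z u : α} (hz : m.cl z) (hu : m.cl u) (he : m.E z u) :
    ∃ y, m.N y ∧ m.P true y z ∧ (m.R true y u ↔ m.SD z) := by
  obtain ⟨y, hy⟩ := h.tk u z
  exact ⟨y, (hy.2.2.2.2.2.1 hu hz).2.2.2.1 he⟩

/-- two different climbers without labels are separated -/
theorem Ok.sepC (h : Ok m U Hh Vv) {z u : α} (hz : m.cl z) (hu : m.cl u) (hne : z ≠ u)
    (h1 : ¬ m.A z u) (h2 : ¬ m.E z u) (h3 : ¬ m.E u z) :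
    ∃ y, m.N y ∧ ∃ a, m.P a y z ∧ ¬ m.P a y u := by
  obtain ⟨y, hy⟩ := h.tk z u
  exact ⟨y, (hy.2.2.2.2.2.1 hz hu).2.2.2.2 hne h1 h2 h3⟩

/-- climbing, label `F` -/
theorem Ok.cbF (h : Ok m U Hh Vv) {z g : α} {a : Bool} (hz : m.cl z) (hg : m.gp g) (hf : m.F a z g)
    (h0 : ¬ m.SD z) : ∃ y, m.Cb z y ∧ m.F a y g := by
  obtain ⟨y, hy⟩ := h.tk z g
  have h1 := hy.2.2.2.2.2.2.1 hz hg ⟨a, hf⟩ h0
  exact ⟨y, h1.1, h1.2 a hf⟩

/-- task TL, label `F` -/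
theorem Ok.tlF (h : Ok m U Hh Vv) {z g : α} {a : Bool} (hz : m.cl z) (hg : m.gp g)
    (hf : m.F a z g) : ∃ y, m.N y ∧ m.P true y z ∧ (m.R a y g ↔ m.SD z) := by
  obtain ⟨y, hy⟩ := h.tk g z
  have h1 := hy.2.2.2.2.2.2.2.1 hg hz ⟨a, hf⟩
  exact ⟨y, h1.1, h1.2.1, h1.2.2 a hf⟩

/-- two different ground pairs are separated -/
theorem Ok.sepG (h : Ok m U Hh Vv) {z u : α} (hz : m.gp z) (hu : m.gp u) (hne : z ≠ u) :
    ∃ y, m.N y ∧ ∃ a, m.P a y z ∧ ¬ m.P a y u := by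
  obtain ⟨y, hy⟩ := h.tk z u
  exact ⟨y, hy.2.2.2.2.2.2.2.2 hz hu hne⟩

end

/-! ### the calculus of conditions -/

section
variable {F G : ∀ α : Type, (ℕ → List α → Prop) → α → α → α → Prop}

theorem QD.congr (h : QD F) (h1 : ∀ α R x y z, F α R x y z ↔ G α R x y z) : QD G := by
  obtain ⟨φ, a, b, c⟩ := h
  exact ⟨φ, a, b, fun α R v => (c α R v).trans (h1 _ _ _ _ _)⟩

theorem QD.not (h : QD F) : QD (fun α R x y z => ¬ F α R x y z) := by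
  obtain ⟨φ, a, b, c⟩ := h
  exact ⟨.neg φ, a, b, fun α R v => not_congr (c α R v)⟩

theorem QD.and (h : QD F) (h' : QD G) : QD (fun α R x y z => F α R x y z ∧ G α R x y z) := by
  obtain ⟨φ, a, b, c⟩ := h
  obtain ⟨ψ, a', b', c'⟩ := h'
  exact ⟨.and φ ψ, ⟨a, a'⟩, ⟨b, b'⟩, fun α R v => and_congr (c α R v) (c' α R v)⟩

theorem QD.or (h : QD F) (h' : QD G) : QD (fun α R x y z => F α R x y z ∨ G α R x y z) :=
  (h.not.and h'.not).not.congr fun α R x y z => by tauto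

theorem QD.imp (h : QD F) (h' : QD G) : QD (fun α R x y z => F α R x y z → G α R x y z) :=
  (h.not.or h').congr fun α R x y z => by tauto

theorem QD.iff (h : QD F) (h' : QD G) : QD (fun α R x y z => (F α R x y z ↔ G α R x y z)) :=
  ((h.imp h').and (h'.imp h)).congr fun α R x y z => by tauto

theorem QD.tt : QD (fun _ _ _ _ _ => True) :=
  ⟨.eq 0 0, ⟨by norm_num, by norm_num⟩, trivial, fun α R v => by simp [QF.Sat]⟩

theorem QD.const (p : Prop) : QD (fun _ _ _ _ _ => p) := by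
  by_cases hp : p
  · exact QD.tt.congr fun _ _ _ _ _ => by simp [hp]
  · exact QD.tt.not.congr fun _ _ _ _ _ => by simp [hp]

/-- the variable `0`, `1`, `2` -/
def pk {α : Type} (i : ℕ) (x y z : α) : α := if i = 0 then x else if i = 1 then y else z

theorem QD.eq (i j : ℕ) (hi : i < 3) (hj : j < 3) : QD (fun _ _ x y z => pk i x y z = pk j x y z) := by
  refine ⟨.eq i j, ⟨hi, hj⟩, trivial, fun α R v => ?_⟩
  have h1 : ∀ i < 3, pk i (v 0) (v 1) (v 2) = v i := by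
    intro i hi
    interval_cases i <;> simp [pk]
  simp only [QF.Sat, h1 i hi, h1 j hj]

theorem QD.r1 (k i : ℕ) (hi : i < 3) : QD (fun _ R x y z => R k [pk i x y z]) := by
  refine ⟨.rel k [i], by simp [QF.Vars, hi], Or.inl rfl, fun α R v => ?_⟩
  have h1 : ∀ i < 3, pk i (v 0) (v 1) (v 2) = v i := by
    intro i hi
    interval_cases i <;> simp [pk]
  simp only [QF.Sat, h1 i hi, List.map_cons, List.map_nil]

theorem QD.r2 (k i j : ℕ) (hi : i < 3) (hj : j < 3) :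
    QD (fun _ R x y z => R k [pk i x y z, pk j x y z]) := by
  refine ⟨.rel k [i, j], by simp [QF.Vars, hi, hj], Or.inr rfl, fun α R v => ?_⟩
  have h1 : ∀ i < 3, pk i (v 0) (v 1) (v 2) = v i := by
    intro i hi
    interval_cases i <;> simp [pk]
  simp only [QF.Sat, h1 i hi, h1 j hj, List.map_cons, List.map_nil]

/-- finite conjunctions -/
theorem QD.all {ι : Type} [Finite ι] {F : ι → ∀ α : Type, (ℕ → List α → Prop) → α → α → α → Prop}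
    (h : ∀ i, QD (F i)) : QD (fun α R x y z => ∀ i, F i α R x y z) := by
  classical
  have := Fintype.ofFinite ι
  have key : ∀ s : Finset ι, QD (fun α R x y z => ∀ i ∈ s, F i α R x y z) := by
    intro s
    induction s using Finset.induction_on with
    | empty => exact QD.tt.congr fun _ _ _ _ _ => by simp
    | insert a s ha ih =>
      exact ((h a).and ih).congr fun _ _ _ _ _ => by simp
  exact (key Finset.univ).congr fun _ _ _ _ _ => by simp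

/-- finite disjunctions -/
theorem QD.ex {ι : Type} [Finite ι] {F : ι → ∀ α : Type, (ℕ → List α → Prop) → α → α → α → Prop}
    (h : ∀ i, QD (F i)) : QD (fun α R x y z => ∃ i, F i α R x y z) :=
  (QD.all fun i => (h i).not).not.congr fun _ _ _ _ _ => by push Not; rfl

end

end Pool.Agent.H71.PX
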