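import Pool.Agent.H8.PL.Sys

/-!
# Prefix classes of relational first-order sentences and their spectra
-/

set_option autoImplicit false

namespace Pool.Agent.H71.PX

/-- Quantifier-free formulas; variables and relation symbols are named by numbers, a relation symbol is
applied to a list of variables of any length. -/
inductive QF : Type
  | rel (i : ℕ) (xs : List ℕ) : QF
  | eq (x y : ℕ) : QF
  | neg (φ : QF) : QF
  | and (φ ψ : QF) : QF

/-- All variables are `< k`. -/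
def QF.Vars (k : ℕ) : QF → Prop
  | .rel _ xs => ∀ x ∈ xs, x < k
  | .eq x y => x < k ∧ y < k
  | .neg φ => φ.Vars k
  | .and φ ψ => φ.Vars k ∧ ψ.Vars k

/-- All relation symbols are unary or binary. -/
def QF.Bin : QF → Prop
  | .rel _ xs => xs.length = 1 ∨ xs.length = 2
  | .eq _ _ => True
  | .neg φ => φ.Bin
  | .and φ ψ => φ.Bin ∧ ψ.Bin

/-- Satisfaction in the structure with the relations `R`. -/
def QF.Sat {α : Type} (R : ℕ → List α → Prop) (v : ℕ → α) : QF → Prop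
  | .rel i xs => R i (xs.map v)
  | .eq x y => v x = v y
  | .neg φ => ¬ φ.Sat R v
  | .and φ ψ => φ.Sat R v ∧ ψ.Sat R v

/-- Satisfaction of the formula with the quantifier prefix `π` (`true` is a universal quantifier,
`false` is an existential quantifier) and the quantifier-free formula `φ`; the quantifiers bind the
variables `k, k + 1, …`. -/
def Pre {α : Type} (R : ℕ → List α → Prop) (φ : QF) : List Bool → ℕ → (ℕ → α) → Prop
  | [], _, v => φ.Sat R v
  | true :: π, k, v => ∀ a, Pre R φ π (k + 1) (Function.update v k a)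
  | false :: π, k, v => ∃ a, Pre R φ π (k + 1) (Function.update v k a)

/-- The spectrum of the sentence with the prefix `π` and the quantifier-free formula `φ`: the sizes of
its finite models. -/
def Spec (π : List Bool) (φ : QF) : Set ℕ :=
  {n | 0 < n ∧ ∃ R : ℕ → List (Fin n) → Prop, ∀ v : ℕ → Fin n, Pre R φ π 0 v}

/-- The prefix is of the form `∃…∃∀…∀` or `∃…∃∀∃…∃`. -/
def Easy (π : List Bool) : Prop :=
  ∃ a b, π = List.replicate a false ++ List.replicate b true ∨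
    π = List.replicate a false ++ true :: List.replicate b false

/-! ### the axioms for the prefix `∀∀∃` -/

/-- The relations. `N`: numbers; `C`: climbers (the elements outside `N` are pairs, the pairs outside
`C` are the ground pairs); `Zr`, `Tp`: zero and the last number; `Z2`: the second coordinate is zero;
`SD`: the first coordinate is the second plus one; `Lt`, `S`: order and successor of numbers;
`P a w z`, `L a w z`, `R a w z`: the number `w` is the coordinate `z_a`, is less than it, is its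
predecessor (`a = false`: first coordinate, `a = true`: second coordinate); `Pd w z`: `w = z_2 + 1`;
`A z u`: `z_1 = u_1`; `K z u`: `z_2 < u_2`; `B z u`: `z_1 = u_1`, `u_2 = z_2 + 1`; `E z u`:
`z_1 = u_2`; `F a z g`: `z_1 = g_a`; `T`: tiles on pairs of numbers; `U1`, `U2`: copies of the tiles. -/
structure St (α Q : Type) : Type where
  N : α → Prop
  C : α → Prop
  Zr : α → Prop
  Tp : α → Prop
  Z2 : α → Prop
  SD : α → Prop
  Lt : α → α → Prop
  S : α → α → Prop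
  P : Bool → α → α → Prop
  L : Bool → α → α → Prop
  R : Bool → α → α → Prop
  Pd : α → α → Prop
  A : α → α → Prop
  K : α → α → Prop
  B : α → α → Prop
  E : α → α → Prop
  F : Bool → α → α → Prop
  T : Q → α → α → Prop
  U1 : Q → α → Prop
  U2 : Q → α → Prop

section
variable {α Q : Type} (m : St α Q)

/-- climbers -/
def St.cl (x : α) : Prop := ¬ m.N x ∧ m.C x

/-- ground pairs -/
def St.gp (x : α) : Prop := ¬ m.N x ∧ ¬ m.C x

/-- `z` is the pair `(x_1, x_2 + 1)` -/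
def St.Cb (x z : α) : Prop := m.cl z ∧ m.A z x ∧ m.A x z ∧ m.B x z ∧ m.K x z

/-- universal axioms for two numbers -/
def UnN (U : Bool → Bool → Bool → Bool → Q → Prop) (Hh Vv : Q → Q → Prop) (x y : α) : Prop :=
  m.N x → m.N y → (x ≠ y → m.Lt x y ∨ m.Lt y x) ∧ (m.Lt x y → ¬ m.Lt y x) ∧ (m.S x y → m.Lt x y) ∧
    (m.Zr y → ¬ m.Lt x y) ∧ (m.Tp x → ¬ m.Lt x y) ∧ (∃ q, m.T q x y) ∧
    (∀ q, m.T q x y → ∀ b1 b2 b3 b4 : Bool, (b1 = true ↔ m.Zr x) → (b2 = true ↔ m.Tp x) →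
      (b3 = true ↔ m.Zr y) → (b4 = true ↔ m.Tp y) → U b1 b2 b3 b4 q) ∧
    (m.S x y → ∀ q q', (m.T q x x → m.T q' y x → Hh q q') ∧ (m.T q x x → m.T q' x y → Vv q q'))

/-- universal axioms for a number and a pair -/
def UnP (x y : α) : Prop :=
  m.N x → ¬ m.N y → (∀ a, m.P a x y → ¬ m.L a x y) ∧ (∀ a, m.R a x y → m.L a x y) ∧
    (m.L true x y → m.L false x y) ∧ (m.P true x y → m.L false x y) ∧
    (m.R false x y → ¬ m.L true x y) ∧ (m.Zr x → m.L false x y) ∧
    (m.Zr x → m.P true x y ∨ m.L true x y) ∧ (m.P true x y → (m.Z2 y ↔ m.Zr x)) ∧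
    (m.Zr x → m.Z2 y → m.P true x y) ∧ (m.Tp x → ¬ m.L false x y) ∧
    (m.C y → m.P true x y → (m.SD y ↔ m.R false x y))

/-- universal axioms for two climbers -/
def UnC (x y : α) : Prop :=
  m.cl x → m.cl y → (m.A x y → m.A y x) ∧ (m.A x y → x ≠ y → m.K x y ∨ m.K y x)

/-- tasks, equal elements -/
def TkE (x y z : α) : Prop :=
  x = y → (m.N x → ¬ m.Tp x → m.N z ∧ m.S x z) ∧ (m.N x → m.Tp x → m.N z ∧ m.Zr z) ∧
    (¬ m.N x → m.N z ∧ m.Zr z)

/-- tasks, two numbers -/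
def TkN (Hh Vv : Q → Q → Prop) (x y z : α) : Prop :=
  m.N x → m.N y → (m.Lt x y → m.N z ∧ m.S x z ∧ (z = y ∨ m.Lt z y) ∧
    ∀ q q', (m.T q x y → m.T q' z y → Hh q q') ∧ (m.T q y x → m.T q' y z → Vv q q')) ∧
    (m.Lt y x → m.gp z ∧ m.P false x z ∧ m.P true y z ∧
      ∀ q, (m.U1 q z ↔ m.T q x y) ∧ (m.U2 q z ↔ m.T q y x))

/-- tasks, a number and a pair -/
def TkP (x y z : α) : Prop :=
  m.N x → ¬ m.N y → (m.L false x y → m.N z ∧ m.S x z ∧
    ∀ a, (m.P a z y ↔ m.R a x y) ∧ (m.L a z y ↔ m.L a x y ∧ ¬ m.R a x y)) ∧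
    (m.C y → m.P false x y → m.N z ∧ m.P true z y ∧ (m.S z x ↔ m.SD y))

/-- tasks, a climber and a number -/
def TkC (x y z : α) : Prop :=
  m.cl x → m.N y → (m.P true y x → ¬ m.Zr y → m.cl z ∧ m.Z2 z ∧ m.P false y z ∧ m.E z x) ∧
    (m.P false y x → ¬ m.SD x → m.Cb x z ∧ m.P false y z) ∧
    (m.Pd y x → m.L false y x → m.N z ∧ m.S z y ∧ m.P true z x)

/-- tasks, a ground pair and a number -/
def TkG (Hh Vv : Q → Q → Prop) (x y z : α) : Prop :=
  m.gp x → m.N y → ((∃ a, m.P a y x) → ¬ m.Zr y →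
    m.cl z ∧ m.Z2 z ∧ m.P false y z ∧ ∀ a, m.P a y x → m.F a z x) ∧
    (m.R false y x → ¬ m.P true y x → m.N z ∧ m.P true z x ∧
      ∀ q q', (m.T q y z → m.U1 q' x → Hh q q') ∧ (m.T q z y → m.U2 q' x → Vv q q'))

/-- `z` separates the pairs `x` and `y` -/
def St.Sep (x y z : α) : Prop := m.N z ∧ ∃ a, m.P a z x ∧ ¬ m.P a z y

/-- tasks, two climbers -/
def TkCC (x y z : α) : Prop :=
  m.cl x → m.cl y → (m.A x y → m.K y x → ¬ m.SD x → m.Cb x z ∧ m.A z y ∧ m.K y z) ∧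
    (m.A x y → m.K x y → m.N z ∧ m.P true z y ∧ ¬ m.P true z x ∧ ¬ m.L true z x ∧
      (m.B x y → m.Pd z x ∧ m.L false z x) ∧ (m.R false z x ↔ m.SD y)) ∧
    (m.E x y → ¬ m.SD x → m.Cb x z ∧ m.E z y) ∧
    (m.E y x → m.N z ∧ m.P true z y ∧ (m.R true z x ↔ m.SD y)) ∧
    (x ≠ y → ¬ m.A x y → ¬ m.E x y → ¬ m.E y x → m.Sep x y z)

/-- tasks, a climber and a ground pair, in both orders, and two ground pairs -/
def TkGG (x y z : α) : Prop :=
  (m.cl x → m.gp y → (∃ a, m.F a x y) → ¬ m.SD x → m.Cb x z ∧ ∀ a, m.F a x y → m.F a z y) ∧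
    (m.gp x → m.cl y → (∃ a, m.F a y x) → m.N z ∧ m.P true z y ∧
      ∀ a, m.F a y x → (m.R a z x ↔ m.SD y)) ∧
    (m.gp x → m.gp y → x ≠ y → m.Sep x y z)

/-- all universal axioms -/
def Un (U : Bool → Bool → Bool → Bool → Q → Prop) (Hh Vv : Q → Q → Prop) (x y : α) : Prop :=
  UnN m U Hh Vv x y ∧ UnP m x y ∧ UnC m x y

/-- all tasks -/
def Tk (Hh Vv : Q → Q → Prop) (x y z : α) : Prop :=
  TkE m x y z ∧ TkN m Hh Vv x y z ∧ TkP m x y z ∧ TkC m x y z ∧ TkG m Hh Vv x y z ∧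
    TkCC m x y z ∧ TkGG m x y z

/-- the axioms -/
def Ok (U : Bool → Bool → Bool → Bool → Q → Prop) (Hh Vv : Q → Q → Prop) : Prop :=
  ∀ x y, ∃ z, Un m U Hh Vv x y ∧ Tk m Hh Vv x y z

end

/-! ### the intended model -/

/-- the coordinates of a point of the square: the larger one and the smaller one -/
def c1 {n : ℕ} (x : Fin n × Fin n) : ℕ := max x.1 x.2

/-- the smaller coordinate -/
def c2 {n : ℕ} (x : Fin n × Fin n) : ℕ := min x.1 x.2

/-- the coordinate -/
def cc {n : ℕ} (a : Bool) (x : Fin n × Fin n) : ℕ := if a then c2 x else c1 x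

/-- the intended model on the square: `(i, i)` is the number `i`, `(i, j)` with `j < i` is a ground
pair, `(j, i)` with `j < i` is the climber with the coordinates `i`, `j` -/
def Mo (n : ℕ) {Q : Type} (t : ℕ → ℕ → Q) : St (Fin n × Fin n) Q where
  N x := x.1 = x.2
  C x := x.1 < x.2
  Zr x := c1 x = 0
  Tp x := c1 x + 1 = n
  Z2 x := c2 x = 0
  SD x := c1 x = c2 x + 1
  Lt x y := c1 x < c1 y
  S x y := c1 x + 1 = c1 y
  P a w z := c1 w = cc a z
  L a w z := c1 w < cc a z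
  R a w z := c1 w + 1 = cc a z
  Pd w z := c1 w = c2 z + 1
  A z u := c1 z = c1 u
  K z u := c2 z < c2 u
  B z u := c1 z = c1 u ∧ c2 u = c2 z + 1
  E z u := c1 z = c2 u
  F a z g := c1 z = cc a g
  T q x y := t (c1 x) (c1 y) = q
  U1 q x := t (c1 x) (c2 x) = q
  U2 q x := t (c2 x) (c1 x) = q

/-! ### the axioms for the prefix `∀∃∀` -/

/-- the relations -/
structure Sa (α Q : Type) : Type where
  Zr : α → Prop
  Tp : α → Prop
  Lt : α → α → Prop
  T : Q → α → α → Prop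

/-- the axioms; `y` is the successor of `x` -/
def Oa {α Q : Type} (m : Sa α Q) (U : Bool → Bool → Bool → Bool → Q → Prop) (Hh Vv : Q → Q → Prop)
    (x y z : α) : Prop :=
  ¬ m.Lt x x ∧ (x = z ∨ m.Lt x z ∨ m.Lt z x) ∧ (m.Zr z → ¬ m.Lt x z) ∧ (m.Tp x → ¬ m.Lt x z) ∧
    (m.Tp x → m.Zr y) ∧ (¬ m.Tp x → (m.Lt x z ↔ z = y ∨ m.Lt y z)) ∧ (∃ q, m.T q x z) ∧
    (∀ q, m.T q x z → ∀ b1 b2 b3 b4 : Bool, (b1 = true ↔ m.Zr x) → (b2 = true ↔ m.Tp x) →
      (b3 = true ↔ m.Zr z) → (b4 = true ↔ m.Tp z) → U b1 b2 b3 b4 q) ∧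
    (¬ m.Tp x → ∀ q q', (m.T q x z → m.T q' y z → Hh q q') ∧ (m.T q z x → m.T q' z y → Vv q q'))

/-! ### reading the relations from the symbols -/

/-- the structure given by the relations `R` -/
def dec {α Q : Type} (e : Q → ℕ) (R : ℕ → List α → Prop) : St α Q where
  N x := R 0 [x]
  C x := R 1 [x]
  Zr x := R 2 [x]
  Tp x := R 3 [x]
  Z2 x := R 4 [x]
  SD x := R 5 [x]
  Lt x y := R 6 [x, y]
  S x y := R 7 [x, y]
  P a x y := R (8 + a.toNat) [x, y]
  L a x y := R (10 + a.toNat) [x, y]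
  R a x y := R (12 + a.toNat) [x, y]
  Pd x y := R 14 [x, y]
  A x y := R 15 [x, y]
  K x y := R 16 [x, y]
  B x y := R 17 [x, y]
  E x y := R 18 [x, y]
  F a x y := R (19 + a.toNat) [x, y]
  T q x y := R (3 * e q + 21) [x, y]
  U1 q x := R (3 * e q + 22) [x]
  U2 q x := R (3 * e q + 23) [x]

/-- the structure given by the relations `R` -/
def deca {α Q : Type} (e : Q → ℕ) (R : ℕ → List α → Prop) : Sa α Q where
  Zr x := R 0 [x]
  Tp x := R 1 [x]
  Lt x y := R 2 [x, y]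
  T q x y := R (3 + e q) [x, y]

/-- a condition on three elements which is given by a quantifier-free formula with unary and binary
relation symbols -/
def QD (F : ∀ α : Type, (ℕ → List α → Prop) → α → α → α → Prop) : Prop :=
  ∃ φ : QF, φ.Vars 3 ∧ φ.Bin ∧ ∀ (α : Type) (R : ℕ → List α → Prop) (v : ℕ → α),
    (φ.Sat R v ↔ F α R (v 0) (v 1) (v 2))

/-! ### the induction for the prefix `∀∀∃` -/

section
variable {α Q : Type}

/-- the numbers `0, …, v` are represented by unique elements -/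
structure IH (m : St α Q) (n : ℕ → α) (v : ℕ) : Prop where
  num : ∀ k ≤ v, m.N (n k)
  zr : m.Zr (n 0)
  ord : ∀ i j, i < j → j ≤ v → m.Lt (n i) (n j)
  top : ∀ k < v, ¬ m.Tp (n k)
  suc : ∀ k < v, m.S (n k) (n (k + 1))
  usuc : ∀ k < v, ∀ w, m.N w → m.S (n k) w → w = n (k + 1)
  lt : ∀ k ≤ v, ∀ w, m.N w → (∀ j ≤ k, w ≠ n j) → m.Lt (n k) w
  s : ∀ k ≤ v, ∀ a z w, ¬ m.N z → m.N w → m.P a (n k) z → m.P a w z → w = n k
  sA : ∀ k ≤ v, ∀ j < k, ∀ z u, m.cl z → m.cl u → m.A z u → m.P false (n k) z →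
    m.P true (n j) u → m.P false (n k) u
  sE : ∀ k ≤ v, ∀ z u, m.cl z → m.cl u → m.E z u → m.P false (n k) z → m.P true (n k) u

/-- no certified value `≤ v` of the coordinate `a` of `z` -/
def NC (m : St α Q) (n : ℕ → α) (v : ℕ) (a : Bool) (z : α) : Prop := ∀ k ≤ v, ¬ m.P a (n k) z

/-- `u` has a coordinate with the label `z_1 = u_…`, and `t` says that this coordinate is `v + 1` -/
def Lab (m : St α Q) (n : ℕ → α) (v : ℕ) (z u : α) (t : Prop) : Prop :=
  (m.N u ∧ m.P false u z ∧ (t ↔ m.S (n v) u)) ∨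
  (m.cl u ∧ m.A z u ∧ m.K u z ∧ (t ↔ m.R false (n v) u)) ∨
  (m.cl u ∧ m.E z u ∧ (t ↔ m.R true (n v) u)) ∨
  (m.gp u ∧ ∃ a, m.F a z u ∧ (t ↔ m.R a (n v) u))

/-- a climber with second coordinate `j` and a false label -/
def State (m : St α Q) (n : ℕ → α) (v j : ℕ) : Prop :=
  ∃ z u t, m.cl z ∧ NC m n v false z ∧ m.P true (n j) z ∧ Lab m n v z u t ∧
    ¬ (m.R false (n v) z ↔ t)

end

end Pool.Agent.H71.PX
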