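import Pool.Agent.H71.PX.Targets

/-!
# Prefix classes: the beginning of the induction
-/

set_option autoImplicit false

namespace Pool.Agent.H71.PX

theorem pf_I0 : T_I0 := by
  intro α Q m U Hh Vv hne _ h
  have hz : ∃ z, m.N z ∧ m.Zr z := by
    obtain ⟨a⟩ := hne
    by_cases ha : m.N a
    · by_cases ht : m.Tp a
      · exact h.zero_of_top ha ht
      · obtain ⟨z, hz, hs⟩ := h.succ ha ht
        have hl := (h.uN ha hz).2.2.1 hs
        have hne : ¬ m.Lt z a := (h.uN ha hz).2.1 hl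
        obtain ⟨g, hg, _⟩ := h.gnd hz ha hl
        exact h.zero_of_pair hg.1
    · exact h.zero_of_pair ha
  obtain ⟨z0, hN, hZ⟩ := hz
  have hlt : ∀ w, m.N w → w ≠ z0 → m.Lt z0 w := by
    intro w hw hne
    rcases (h.uN hN hw).1 (Ne.symm hne) with h1 | h1
    · exact h1
    · exact absurd h1 ((h.uN hw hN).2.2.2.1 hZ)
  have hP : ∀ z, ¬ m.N z → ¬ m.P false z0 z := fun z hz hp =>
    (h.uP hN hz).1 false hp ((h.uP hN hz).2.2.2.2.2.1 hZ)
  refine ⟨fun _ => z0, ⟨fun _ _ => hN, hZ, ?_, ?_, ?_, ?_, ?_, ?_, ?_, ?_⟩⟩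
  · exact fun i j hij hj => by omega
  · exact fun k hk => by omega
  · exact fun k hk => by omega
  · exact fun k hk => by omega
  · exact fun k _ w hw hne => hlt w hw (hne 0 (Nat.zero_le _))
  · intro k _ a z w hz hw h1 h2
    cases a with
    | false => exact absurd h1 (hP z hz)
    | true =>
      have h3 : m.Z2 z := ((h.uP hN hz).2.2.2.2.2.2.2.1 h1).2 hZ
      have h4 : m.Zr w := ((h.uP hw hz).2.2.2.2.2.2.2.1 h2).1 h3
      by_contra hne
      exact (h.uN hN hw).2.2.2.1 h4 (hlt w hw hne)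
  · exact fun k hk j hj => by omega
  · exact fun k _ z u hz _ _ h1 => absurd h1 (hP z hz.1)

end Pool.Agent.H71.PX
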