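import Pool.Agent.H71.PX.EC

/-!
# Sentences without equality
-/

set_option autoImplicit false

namespace Pool.Agent.H71.PX

open Pool.Agent.H69.Sp Pool.Agent.H8.PL

/-- The formula does not contain equality. -/
def QF.NoEq : QF → Prop
  | .rel _ _ => True
  | .eq _ _ => False
  | .neg φ => φ.NoEq
  | .and φ ψ => φ.NoEq ∧ ψ.NoEq

theorem sat_col {α β : Type} (f : β → α) (R : ℕ → List α → Prop) (φ : QF) (h : φ.NoEq) (v : ℕ → β) :
    φ.Sat (fun i l => R i (l.map f)) v ↔ φ.Sat R (f ∘ v) := by
  induction φ with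
  | rel i xs => simp [QF.Sat]
  | eq x y => exact h.elim
  | neg φ ih => exact not_congr (ih h)
  | and φ ψ ih1 ih2 => exact and_congr (ih1 h.1) (ih2 h.2)

theorem pre_col {α β : Type} (f : β → α) (hf : Function.Surjective f) (R : ℕ → List α → Prop)
    (φ : QF) (h : φ.NoEq) : ∀ (π : List Bool) (k : ℕ) (v : ℕ → β),
    (Pre (fun i l => R i (l.map f)) φ π k v ↔ Pre R φ π k (f ∘ v)) := by
  intro π
  induction π with
  | nil => exact fun k v => sat_col f R φ h v
  | cons b π ih =>
    intro k v
    have e : ∀ a, f ∘ Function.update v k a = Function.update (f ∘ v) k (f a) := by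
      intro a
      funext i
      by_cases hi : i = k
      · subst hi
        simp
      · simp [Function.update_of_ne hi]
    cases b with
    | false =>
      constructor
      · rintro ⟨a, ha⟩
        exact ⟨f a, by rw [← e]; exact (ih _ _).1 ha⟩
      · rintro ⟨a, ha⟩
        obtain ⟨a', rfl⟩ := hf a
        exact ⟨a', (ih _ _).2 (by rw [e]; exact ha)⟩
    | true =>
      constructor
      · intro hh a
        obtain ⟨a', rfl⟩ := hf a
        rw [← e]
        exact (ih _ _).1 (hh a')
      · intro hh a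
        refine (ih _ _).2 ?_
        rw [e]
        exact hh (f a)

/-- Spectra of sentences without equality are closed upwards. -/
theorem spec_up (π : List Bool) (φ : QF) (h : φ.NoEq) (n : ℕ) (hn : n ∈ Spec π φ) :
    n + 1 ∈ Spec π φ := by
  obtain ⟨hn0, R, hR⟩ := hn
  obtain ⟨k, rfl⟩ : ∃ k, n = k + 1 := ⟨n - 1, by omega⟩
  let f : Fin (k + 1 + 1) → Fin (k + 1) := fun x => if hx : x.val < k + 1 then ⟨x.val, hx⟩ else 0
  have hf : Function.Surjective f := by
    intro y
    refine ⟨⟨y.val, by omega⟩, ?_⟩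
    exact dif_pos y.2
  exact ⟨by omega, fun i l => R i (l.map f), fun v => (pre_col f hf R φ h π 0 v).2 (hR _)⟩

end Pool.Agent.H71.PX
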