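import Pool.Agent.H71.PX.Basic

/-!
# Prefix classes of first-order spectra: targets
-/

set_option autoImplicit false

namespace Pool.Agent.H71.PX

open Pool.Agent.H69.Sp Pool.Agent.H8.PL

/-- the conditions of a tile system -/
abbrev UT (Q : Type) := Bool → Bool → Bool → Bool → Q → Prop

/-! ### runs -/

/-- not certified values `≤ k` give the label `L`; the labels of `n (k + 1)` -/
def T_RA : Prop := ∀ (α Q : Type) (m : St α Q) (U : UT Q) (Hh Vv : Q → Q → Prop) (n : ℕ → α) (v : ℕ),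
  Ok m U Hh Vv → IH m n v → ∀ z, ¬ m.N z →
    (∀ k ≤ v, ∀ a, NC m n k a z → m.L a (n k) z) ∧
    (∀ k < v, m.L false (n k) z → ∀ a, (m.P a (n (k + 1)) z ↔ m.R a (n k) z) ∧
      (m.L a (n (k + 1)) z ↔ m.L a (n k) z ∧ ¬ m.R a (n k) z))

/-- the second coordinate is less than the first one; the labels before the second coordinate -/
def T_RB : Prop := ∀ (α Q : Type) (m : St α Q) (U : UT Q) (Hh Vv : Q → Q → Prop) (n : ℕ → α) (v : ℕ),
  Ok m U Hh Vv → IH m n v → ∀ z, ¬ m.N z →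
    (∀ k ≤ v, m.P false (n k) z → ∃ j < k, m.P true (n j) z) ∧
    (∀ j ≤ v, ∀ a, m.P a (n j) z → ∀ i < j, m.L a (n i) z) ∧
    (∀ i j, i ≤ v → j ≤ v → ∀ a, m.P a (n i) z → m.P a (n j) z → i = j)

/-- the coordinates which are `v + 1` -/
def T_RC : Prop := ∀ (α Q : Type) (m : St α Q) (U : UT Q) (Hh Vv : Q → Q → Prop) (n : ℕ → α) (v : ℕ),
  Ok m U Hh Vv → IH m n v → ∀ z, ¬ m.N z →
    (∀ a, m.R a (n v) z → NC m n v a z) ∧
    (m.R false (n v) z → ∃ j ≤ v, m.P true (n j) z)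

/-! ### states -/

/-- climbing is correct -/
def T_CS : Prop := ∀ (α Q : Type) (m : St α Q) (U : UT Q) (Hh Vv : Q → Q → Prop) (n : ℕ → α) (v : ℕ),
  Ok m U Hh Vv → IH m n v → ∀ j < v, ∀ z z', m.cl z → m.Cb z z' → m.P true (n j) z →
    m.P true (n (j + 1)) z' ∧ (NC m n v false z → NC m n v false z')

/-- one step -/
def T_ST : Prop := ∀ (α Q : Type) (m : St α Q) (U : UT Q) (Hh Vv : Q → Q → Prop) (n : ℕ → α) (v : ℕ),
  Ok m U Hh Vv → IH m n v → ∀ j < v, State m n v j → State m n v (j + 1)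

/-- there is no state -/
def T_NS : Prop := ∀ (α Q : Type) (m : St α Q) (U : UT Q) (Hh Vv : Q → Q → Prop) (n : ℕ → α) (v : ℕ),
  Ok m U Hh Vv → IH m n v → ∀ j ≤ v, ¬ State m n v j

/-- new numbers and pairs -/
def T_SL : Prop := ∀ (α Q : Type) (m : St α Q) (U : UT Q) (Hh Vv : Q → Q → Prop) (n : ℕ → α) (v : ℕ),
  Ok m U Hh Vv → IH m n v → ∀ w z, m.N w → (∀ k ≤ v, w ≠ n k) → ¬ m.N z →
    (m.P true w z → (m.S (n v) w ↔ m.R true (n v) z)) ∧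
    (m.gp z → m.P false w z → (m.S (n v) w ↔ m.R false (n v) z)) ∧
    (m.cl z → m.P false w z → m.R false (n v) z → m.S (n v) w)

/-- the successor is unique -/
def T_UQ : Prop := ∀ (α Q : Type) (m : St α Q) (U : UT Q) (Hh Vv : Q → Q → Prop) (n : ℕ → α) (v : ℕ),
  Ok m U Hh Vv → IH m n v → ∀ w w', m.N w → m.N w' → m.S (n v) w → m.S (n v) w' → w = w'

/-- climbers with the same first coordinate -/
def T_SA : Prop := ∀ (α Q : Type) (m : St α Q) (U : UT Q) (Hh Vv : Q → Q → Prop) (n : ℕ → α) (v : ℕ),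
  Ok m U Hh Vv → IH m n v → ∀ z u j, m.cl z → m.cl u → m.A z u → m.R false (n v) z → j ≤ v →
    m.P true (n j) u → m.R false (n v) u

/-- the label `E` -/
def T_SE : Prop := ∀ (α Q : Type) (m : St α Q) (U : UT Q) (Hh Vv : Q → Q → Prop) (n : ℕ → α) (v : ℕ),
  Ok m U Hh Vv → IH m n v → ∀ z u, m.cl z → m.cl u → m.E z u → m.R false (n v) z →
    m.R true (n v) u

/-- the labels of the new number `w` -/
def T_NW : Prop := ∀ (α Q : Type) (m : St α Q) (U : UT Q) (Hh Vv : Q → Q → Prop) (n : ℕ → α) (v : ℕ),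
  Ok m U Hh Vv → IH m n v → ∀ w, m.N w → m.S (n v) w → (∀ k ≤ v, w ≠ n k) ∧
    (∀ z, ¬ m.N z → ∀ a, (m.P a w z ↔ m.R a (n v) z))

/-! ### the induction -/

/-- the beginning -/
def T_I0 : Prop := ∀ (α Q : Type) (m : St α Q) (U : UT Q) (Hh Vv : Q → Q → Prop),
  Nonempty α → Finite α → Ok m U Hh Vv → ∃ n, IH m n 0

/-- the step -/
def T_IS : Prop := ∀ (α Q : Type) (m : St α Q) (U : UT Q) (Hh Vv : Q → Q → Prop) (n : ℕ → α) (v : ℕ),
  Ok m U Hh Vv → IH m n v → ¬ m.Tp (n v) → ∃ w, IH m (Function.update n (v + 1) w) (v + 1)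

/-- the end -/
def T_TR : Prop := ∀ (α Q : Type) (m : St α Q) (U : UT Q) (Hh Vv : Q → Q → Prop),
  Nonempty α → Finite α → Ok m U Hh Vv → ∃ n v, IH m n v ∧ m.Tp (n v)

/-! ### the finite models -/

/-- all elements are known -/
def T_Z1 : Prop := ∀ (α Q : Type) (m : St α Q) (U : UT Q) (Hh Vv : Q → Q → Prop) (n : ℕ → α) (v : ℕ),
  Ok m U Hh Vv → IH m n v → m.Tp (n v) → (∀ w, m.N w → ∃ k ≤ v, w = n k) ∧
    ∀ z, ¬ m.N z → ∃ i ≤ v, ∃ j < i, m.P false (n i) z ∧ m.P true (n j) z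

/-- the pairs exist -/
def T_Z2 : Prop := ∀ (α Q : Type) (m : St α Q) (U : UT Q) (Hh Vv : Q → Q → Prop) (n : ℕ → α) (v : ℕ),
  Ok m U Hh Vv → IH m n v → ∀ i ≤ v, ∀ j < i,
    (∃ g, m.gp g ∧ m.P false (n i) g ∧ m.P true (n j) g ∧
      ∀ q, (m.U1 q g ↔ m.T q (n i) (n j)) ∧ (m.U2 q g ↔ m.T q (n j) (n i))) ∧
    ∃ c, m.cl c ∧ m.P false (n i) c ∧ m.P true (n j) c

/-- the pairs are unique -/
def T_Z3 : Prop := ∀ (α Q : Type) (m : St α Q) (U : UT Q) (Hh Vv : Q → Q → Prop) (n : ℕ → α) (v : ℕ),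
  Ok m U Hh Vv → IH m n v → ∀ i ≤ v, ∀ j < i, ∀ z u, ¬ m.N z → ¬ m.N u → (m.C z ↔ m.C u) →
    m.P false (n i) z → m.P true (n j) z → m.P false (n i) u → m.P true (n j) u → z = u

/-- the number of elements -/
def T_Z4 : Prop := ∀ (α Q : Type) (m : St α Q) (U : UT Q) (Hh Vv : Q → Q → Prop) (n : ℕ → α) (v : ℕ),
  Finite α → Ok m U Hh Vv → IH m n v → m.Tp (n v) → Nat.card α = (v + 1) ^ 2

/-- the tiling -/
def T_Z5 : Prop := ∀ (α Q : Type) (m : St α Q) (U : UT Q) (Hh Vv : Q → Q → Prop) (n : ℕ → α) (v : ℕ),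
  Ok m U Hh Vv → IH m n v → m.Tp (n v) → ∃ t, GridF U Hh Vv (v + 1) (v + 1) t

/-- all finite models -/
def T_FO : Prop := ∀ (α Q : Type) (m : St α Q) (U : UT Q) (Hh Vv : Q → Q → Prop),
  Nonempty α → Finite α → Ok m U Hh Vv → ∃ n, 0 < n ∧ Nat.card α = n ^ 2 ∧
    ∃ t, GridF U Hh Vv n n t

/-! ### the intended model -/

/-- universal axioms -/
def T_MU : Prop := ∀ (Q : Type) (U : UT Q) (Hh Vv : Q → Q → Prop) (n : ℕ) (t : ℕ → ℕ → Q),
  GridF U Hh Vv n n t → ∀ x y, Un (Mo n t) U Hh Vv x y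

/-- two numbers -/
def T_MN : Prop := ∀ (Q : Type) (U : UT Q) (Hh Vv : Q → Q → Prop) (n : ℕ) (t : ℕ → ℕ → Q),
  GridF U Hh Vv n n t → ∀ x y, (Mo n t).N x → (Mo n t).N y → ∃ z, Tk (Mo n t) Hh Vv x y z

/-- a number and a pair -/
def T_MP : Prop := ∀ (Q : Type) (U : UT Q) (Hh Vv : Q → Q → Prop) (n : ℕ) (t : ℕ → ℕ → Q),
  GridF U Hh Vv n n t → ∀ x y, (Mo n t).N x → ¬ (Mo n t).N y → ∃ z, Tk (Mo n t) Hh Vv x y z

/-- a pair and a number -/
def T_MG : Prop := ∀ (Q : Type) (U : UT Q) (Hh Vv : Q → Q → Prop) (n : ℕ) (t : ℕ → ℕ → Q),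
  GridF U Hh Vv n n t → ∀ x y, ¬ (Mo n t).N x → (Mo n t).N y → ∃ z, Tk (Mo n t) Hh Vv x y z

/-- two climbers -/
def T_MC : Prop := ∀ (Q : Type) (U : UT Q) (Hh Vv : Q → Q → Prop) (n : ℕ) (t : ℕ → ℕ → Q),
  GridF U Hh Vv n n t → ∀ x y, (Mo n t).cl x → (Mo n t).cl y → ∃ z, Tk (Mo n t) Hh Vv x y z

/-- two pairs, one of them a ground pair -/
def T_MX : Prop := ∀ (Q : Type) (U : UT Q) (Hh Vv : Q → Q → Prop) (n : ℕ) (t : ℕ → ℕ → Q),
  GridF U Hh Vv n n t → ∀ x y, ¬ (Mo n t).N x → ¬ (Mo n t).N y →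
    ((Mo n t).gp x ∨ (Mo n t).gp y) → ∃ z, Tk (Mo n t) Hh Vv x y z

/-- the intended model -/
def T_MO : Prop := ∀ (Q : Type) (U : UT Q) (Hh Vv : Q → Q → Prop) (n : ℕ) (t : ℕ → ℕ → Q),
  GridF U Hh Vv n n t → Ok (Mo n t) U Hh Vv

/-! ### the axioms are sentences -/

/-- universal axioms -/
def T_QU : Prop := ∀ (Q : Type) [Finite Q] (e : Q → ℕ) (U : UT Q) (Hh Vv : Q → Q → Prop),
  QD (fun _ R x y _ => Un (dec e R) U Hh Vv x y)

/-- tasks -/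
def T_QT : Prop := ∀ (Q : Type) [Finite Q] (e : Q → ℕ) (Hh Vv : Q → Q → Prop),
  QD (fun _ R x y z => Tk (dec e R) Hh Vv x y z)

/-- the prefix `∀∃∀` -/
def T_QA : Prop := ∀ (Q : Type) [Finite Q] (e : Q → ℕ) (U : UT Q) (Hh Vv : Q → Q → Prop),
  QD (fun _ R x y z => Oa (deca e R) U Hh Vv x y z)

/-- transport to another set -/
def T_TP : Prop := ∀ (α β Q : Type) (f : α ≃ β) (m : St α Q) (U : UT Q) (Hh Vv : Q → Q → Prop),
  Ok m U Hh Vv → ∃ m' : St β Q, Ok m' U Hh Vv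

/-- every structure is given by relations -/
def T_EN : Prop := ∀ (α Q : Type) (e : Q → ℕ), Function.Injective e →
  (∀ m : St α Q, ∃ R : ℕ → List α → Prop, dec e R = m) ∧
    ∀ m : Sa α Q, ∃ R : ℕ → List α → Prop, deca e R = m

/-! ### the prefix `∀∃∀` -/

/-- the models are tilings -/
def T_A1 : Prop := ∀ (Q : Type) (U : UT Q) (Hh Vv : Q → Q → Prop) (n : ℕ) (m : Sa (Fin n) Q), 0 < n →
  (∀ x, ∃ y, ∀ z, Oa m U Hh Vv x y z) → ∃ t, GridF U Hh Vv n n t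

/-- tilings are models -/
def T_A2 : Prop := ∀ (Q : Type) (U : UT Q) (Hh Vv : Q → Q → Prop) (n : ℕ) (t : ℕ → ℕ → Q), 0 < n →
  GridF U Hh Vv n n t → ∃ m : Sa (Fin n) Q, ∀ x, ∃ y, ∀ z, Oa m U Hh Vv x y z

/-! ### tile systems and the two prefixes -/

/-- the prefix `∀∀∃` -/
def T_HE : Prop := ∀ (Q : Type) [Finite Q] (U : UT Q) (Hh Vv : Q → Q → Prop),
  ∃ φ : QF, φ.Vars 3 ∧ φ.Bin ∧ ∀ M, (M ∈ Spec [true, true, false] φ ↔
    ∃ n, 0 < n ∧ M = n ^ 2 ∧ ∃ t, GridF U Hh Vv n n t)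

/-- the prefix `∀∃∀` -/
def T_HA : Prop := ∀ (Q : Type) [Finite Q] (U : UT Q) (Hh Vv : Q → Q → Prop),
  ∃ φ : QF, φ.Vars 3 ∧ φ.Bin ∧ ∀ n, (n ∈ Spec [true, false, true] φ ↔
    0 < n ∧ ∃ t, GridF U Hh Vv n n t)

/-! ### prefixes -/

/-- more quantifiers -/
def T_EM : Prop := ∀ (ρ π : List Bool) (φ : QF), ρ.Sublist π → φ.Vars ρ.length →
  ∃ ψ : QF, ψ.Vars π.length ∧ (φ.Bin → ψ.Bin) ∧ Spec π ψ = Spec ρ φ

/-- the minimal hard prefixes -/
def T_CM : Prop := ∀ π : List Bool, ¬ Easy π →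
  [true, true, false].Sublist π ∨ [true, false, true].Sublist π

/-- existential quantifiers at the beginning -/
def T_EX : Prop := ∀ (α : Type) (R : ℕ → List α → Prop) (φ : QF) (a : ℕ) (π : List Bool) (v : ℕ → α),
  (Pre R φ (List.replicate a false ++ π) 0 v ↔
    ∃ c : ℕ → α, (∀ i, a ≤ i → c i = v i) ∧ Pre R φ π a c)

/-- universal quantifiers -/
def T_AX : Prop := ∀ (α : Type) (R : ℕ → List α → Prop) (φ : QF) (k b : ℕ) (v : ℕ → α),
  (Pre R φ (List.replicate b true) k v ↔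
    ∀ c : ℕ → α, (∀ i, i < k ∨ k + b ≤ i → c i = v i) → φ.Sat R c)

/-- existential quantifiers -/
def T_EB : Prop := ∀ (α : Type) (R : ℕ → List α → Prop) (φ : QF) (k b : ℕ) (v : ℕ → α),
  (Pre R φ (List.replicate b false) k v ↔
    ∃ c : ℕ → α, (∀ i, i < k ∨ k + b ≤ i → c i = v i) ∧ φ.Sat R c)

/-- only the values of the variables matter -/
def T_SB : Prop := ∀ (α β : Type) (R : ℕ → List α → Prop) (R' : ℕ → List β → Prop) (φ : QF) (k : ℕ)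
  (v : ℕ → α) (w : ℕ → β), φ.Vars k → (∀ i j, i < k → j < k → (v i = v j ↔ w i = w j)) →
    (∀ i (xs : List ℕ), (∀ x ∈ xs, x < k) → (R i (xs.map v) ↔ R' i (xs.map w))) →
      (φ.Sat R v ↔ φ.Sat R' w)

/-- one element less -/
def T_E1 : Prop := ∀ (φ : QF) (a b n : ℕ), φ.Vars (a + b) → a < n → 1 < n →
  n ∈ Spec (List.replicate a false ++ List.replicate b true) φ →
    n - 1 ∈ Spec (List.replicate a false ++ List.replicate b true) φ

/-- one element more -/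
def T_E2 : Prop := ∀ (φ : QF) (a b n : ℕ), φ.Vars (a + 1 + b) → a < n →
  n ∈ Spec (List.replicate a false ++ true :: List.replicate b false) φ →
    n + 1 ∈ Spec (List.replicate a false ++ true :: List.replicate b false) φ

/-- the easy prefixes -/
def T_EF : Prop := ∀ (π : List Bool) (φ : QF), Easy π → φ.Vars π.length →
  (Spec π φ).Finite ∨ (Spec π φ)ᶜ.Finite

/-- the spectra are spectra -/
def T_SP : Prop := ∀ (π : List Bool) (φ : QF), φ.Vars π.length → IsSpectrum (Spec π φ)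

/-! ### the theorem -/

/-- all spectra are obtained -/
def T_HS : Prop := ∀ π : List Bool, ¬ Easy π → ∀ S, IsSpectrum S → ∃ (φ : QF) (r : ℕ),
  φ.Vars π.length ∧ φ.Bin ∧ 0 < r ∧ ∀ n, 0 < n → (n ∈ S ↔ n ^ r ∈ Spec π φ)

end Pool.Agent.H71.PX
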